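import Pool.Agent.V5helper51.SG.Short2
import Pool.Agent.V5helper51.MW.All

/-! # Dense sets and most translations in short windows: the step for affine forms -/

set_option autoImplicit false

namespace Pool.Agent.V5helper54.CS

open Finset
open Pool.Agent.H373R2.T7
open Pool.Agent.Y877.SX
open Pool.Agent.V5helper51.SG

/-- logarithms of comparable numbers -/
lemma log_cmp (B : ℕ) (hB : 1 ≤ B) : ∃ x0 : ℕ, ∀ x : ℕ, x0 ≤ x → ∀ x' : ℕ, x ≤ x' → x' ≤ B * x →
    Real.exp 1 ≤ Real.log x ∧ Real.log x ≤ Real.log x' ∧ Real.log x' ≤ 2 * Real.log x ∧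
    Real.log (Real.log x') ≤ 2 * Real.log (Real.log x) := by
  obtain ⟨n1, hn1⟩ := ev_L' (max (Real.exp 1) (Real.log B + 2))
  refine ⟨max n1 1, fun x hx x' h1 h2 => ?_⟩
  have b1 : n1 ≤ x := le_trans (le_max_left _ _) hx
  have b2 : 1 ≤ x := le_trans (le_max_right _ _) hx
  have hL := hn1 x b1
  have hL1 : Real.exp 1 ≤ Real.log x := (le_max_left _ _).trans hL
  have hL2 : Real.log B + 2 ≤ Real.log x := (le_max_right _ _).trans hL
  have hx0 : (0 : ℝ) < x := by exact_mod_cast b2
  have hB0 : (0 : ℝ) < B := by exact_mod_cast hB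
  have hx'0 : (0 : ℝ) < x' := by exact_mod_cast (by omega : 0 < x')
  have h3 : Real.log x ≤ Real.log x' := Real.log_le_log hx0 (by exact_mod_cast h1)
  have h4 : Real.log x' ≤ Real.log B + Real.log x := by
    rw [← Real.log_mul hB0.ne' hx0.ne']
    exact Real.log_le_log hx'0 (by exact_mod_cast h2)
  have h5 : Real.log x' ≤ 2 * Real.log x := by linarith
  refine ⟨hL1, h3, h5, ?_⟩
  have he : 2 ≤ Real.exp 1 := by
    have := Real.exp_one_gt_d9
    linarith
  have hL0 : 0 < Real.log x := by linarith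
  have h6 : Real.log (Real.log x') ≤ Real.log (2 * Real.log x) := Real.log_le_log (by linarith) h5
  rw [Real.log_mul (by norm_num) hL0.ne'] at h6
  have h7 : Real.log 2 ≤ Real.log (Real.log x) := Real.log_le_log (by norm_num) (by linarith)
  linarith

open Classical in
/-- translations by multiples of the primorial -/
theorem plus_step (A : ℕ) (δ : ℝ) (hδ : 0 < δ) : ∃ K0 : ℕ, ∀ K1 : ℕ, ∃ D x0 : ℕ, ∀ x : ℕ, x0 ≤ x →
    ∀ y : ℕ, K0 * Real.log (Real.log x) ≤ y → y ≤ K1 * Real.log (Real.log x) →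
    ∀ S : Finset ℕ, S ⊆ Icc 1 x → (x : ℝ) ≤ S.card * Real.log x ^ A → (∀ s ∈ S, ∀ p : ℕ, p.Prime → p ≤ y → ¬ p ∣ s) →
    ∀ w G : ℕ, primorial y * (w + G) ≤ x → (x : ℝ) ^ (1 / 3 : ℝ) * Real.log x ^ D ≤ primorial y * G →
    (((Ioc w (w + G)).filter (fun n => ((S.filter (fun s => (s + primorial y * n).Prime)).card : ℝ) *
      Real.log (4 * (x : ℝ)) < (1 - 3 * δ) * (S.card * (Vz y)⁻¹))).card : ℝ) ≤ 2 * δ * G := by
  obtain ⟨K0, hK0⟩ := shifts_short Pool.Agent.V5helper51.MW.las_all (A + 1) δ hδ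
  refine ⟨2 * K0, fun K1 => ?_⟩
  obtain ⟨D, x0, hx0⟩ := hK0 K1
  obtain ⟨x1, hx1⟩ := log_cmp 2 (by norm_num)
  refine ⟨2 * D + 1, max x0 (max x1 1), fun x hx y hy1 hy2 S hS hSc hSp w G hw hG => ?_⟩
  have b1 : x0 ≤ x := le_trans (le_max_left _ _) hx
  have b2 : x1 ≤ x := le_trans (le_trans (le_max_left _ _) (le_max_right _ _)) hx
  have b3 : 1 ≤ x := le_trans (le_trans (le_max_right _ _) (le_max_right _ _)) hx
  obtain ⟨M, hMd⟩ : ∃ M, M = primorial y := ⟨_, rfl⟩
  have hM1 : 1 ≤ M := by rw [hMd]; exact primorial_pos y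
  have hxr : (1 : ℝ) ≤ x := by exact_mod_cast b3
  have hx0r : (0 : ℝ) < x := by linarith
  obtain ⟨e0, -, -, -⟩ := hx1 x b2 x le_rfl (by omega)
  have he2 : (2 : ℝ) ≤ Real.exp 1 := by
    have := Real.exp_one_gt_d9
    linarith
  obtain ⟨L, hLd⟩ : ∃ L, L = Real.log (x : ℝ) := ⟨_, rfl⟩
  rw [← hLd] at e0
  have hL2 : 2 ≤ L := by linarith
  have hL0 : 0 < L := by linarith
  have hG1 : 1 ≤ G := by
    by_contra hcon
    have hG0 : G = 0 := by omega
    rw [hG0] at hG
    push_cast at hG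
    rw [mul_zero, ← hLd] at hG
    have : 0 < (x : ℝ) ^ (1 / 3 : ℝ) * L ^ (2 * D + 1) := by positivity
    linarith
  rw [← hMd] at hw hG ⊢
  have hMx : M ≤ x := by
    have h1 : M * 1 ≤ M * (w + G) := Nat.mul_le_mul_left M (by omega)
    omega
  obtain ⟨c, hc⟩ : ∃ c, c = x / M + 1 := ⟨_, rfl⟩
  have hC1 : x < M * c := by
    rw [hc]
    have := Nat.lt_mul_div_succ x (by omega : 0 < M)
    simpa using this
  have hC2 : M * c ≤ x + M := by
    rw [hc, mul_add, mul_one]
    have := Nat.mul_div_le x M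
    omega
  obtain ⟨C, hCd⟩ : ∃ C, C = M * c := ⟨_, rfl⟩
  rw [← hCd] at hC1 hC2
  have hC3 : C ≤ 2 * x := by omega
  obtain ⟨-, e2, e3, e4⟩ := hx1 x b2 C hC1.le hC3
  rw [← hLd] at e2 e3 e4 hy1 hy2 hSc hG
  have hCr0 : (0 : ℝ) < C := by exact_mod_cast (by omega : 0 < C)
  have hinj : Set.InjOn (fun s => C - s) (S : Set ℕ) := by
    intro a ha b hb hab
    have h1 := mem_Icc.1 (hS ha)
    have h2 := mem_Icc.1 (hS hb)
    simp only at hab
    omega
  have hcard : (S.image (fun s => C - s)).card = S.card := card_image_of_injOn hinj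
  have hlog0 : 0 ≤ Real.log L := by
    rw [← Real.log_one]
    exact Real.log_le_log one_pos (by linarith)
  have key := hx0 C (b1.trans hC1.le) y (by
      have h1 : (K0 : ℝ) * Real.log (Real.log C) ≤ K0 * (2 * Real.log L) :=
        mul_le_mul_of_nonneg_left e4 (Nat.cast_nonneg _)
      have h2 : ((2 * K0 : ℕ) : ℝ) * Real.log L = K0 * (2 * Real.log L) := by push_cast; ring
      linarith) (by
      have h1 : (K1 : ℝ) * Real.log L ≤ K1 * Real.log (Real.log C) :=
        mul_le_mul_of_nonneg_left (Real.log_le_log hL0 e2) (Nat.cast_nonneg _)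
      linarith) (S.image (fun s => C - s)) (by
      intro a ha
      rw [mem_image] at ha
      obtain ⟨s, hs, rfl⟩ := ha
      have h1 := mem_Icc.1 (hS hs)
      rw [mem_Icc]
      omega) (by
      rw [hcard]
      have h1 : (0 : ℝ) ≤ S.card := Nat.cast_nonneg _
      calc (C : ℝ) ≤ 2 * x := by exact_mod_cast hC3
        _ ≤ 2 * (S.card * L ^ A) := by linarith
        _ = S.card * (L ^ A * 2) := by ring
        _ ≤ S.card * (L ^ A * L) := by gcongr
        _ = S.card * L ^ (A + 1) := by rw [pow_succ]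
        _ ≤ S.card * Real.log C ^ (A + 1) := by gcongr) (by
      intro a ha p hp hpy hd
      rw [mem_image] at ha
      obtain ⟨s, hs, rfl⟩ := ha
      have h1 := mem_Icc.1 (hS hs)
      have h2 : p ∣ C := by
        rw [hCd, hMd]
        exact (hp.dvd_primorial_iff.2 hpy).mul_right _
      have h3 : p ∣ C - (C - s) := Nat.dvd_sub h2 hd
      have h4 : C - (C - s) = s := by omega
      rw [h4] at h3
      exact hSp s hs p hp hpy h3) (c + w) G (by
      rw [← hMd, mul_add, ← hCd]
      omega) (by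
      rw [← hMd]
      have h1 : M * (c + w + G) = M * c + M * (w + G) := by ring
      rw [h1, ← hCd]
      omega) (by
      rw [← hMd]
      refine le_trans ?_ hG
      have h1 : (C : ℝ) ^ (1 / 3 : ℝ) ≤ 2 * (x : ℝ) ^ (1 / 3 : ℝ) := by
        have h2 : (C : ℝ) ≤ 8 * x := by
          have : (C : ℝ) ≤ 2 * x := by exact_mod_cast hC3
          linarith
        calc (C : ℝ) ^ (1 / 3 : ℝ) ≤ (8 * (x : ℝ)) ^ (1 / 3 : ℝ) := Real.rpow_le_rpow hCr0.le h2 (by norm_num)
          _ = (8 : ℝ) ^ (1 / 3 : ℝ) * (x : ℝ) ^ (1 / 3 : ℝ) := Real.mul_rpow (by norm_num) hx0r.le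
          _ = _ := by
              rw [show (8 : ℝ) = 2 ^ (3 : ℝ) by norm_num, ← Real.rpow_mul (by norm_num)]
              norm_num
      have h3 : Real.log C ^ D ≤ (2 * L) ^ D := pow_le_pow_left₀ (by linarith) e3 D
      have h4 : (2 * L) ^ D ≤ L ^ (2 * D) := by
        rw [pow_mul]
        apply pow_le_pow_left₀ (by positivity)
        nlinarith
      calc (C : ℝ) ^ (1 / 3 : ℝ) * Real.log C ^ D ≤ (2 * (x : ℝ) ^ (1 / 3 : ℝ)) * L ^ (2 * D) := by
            apply mul_le_mul h1 (h3.trans h4) (pow_nonneg (by linarith) _) (by positivity)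
        _ = (x : ℝ) ^ (1 / 3 : ℝ) * (L ^ (2 * D) * 2) := by ring
        _ ≤ (x : ℝ) ^ (1 / 3 : ℝ) * (L ^ (2 * D) * L) := by gcongr
        _ = _ := by rw [pow_succ])
  rw [hcard, ← hMd] at key
  refine le_trans ?_ key
  -- compare the sets
  have hle : ((Ioc w (w + G)).filter (fun n => ((S.filter (fun s => (s + M * n).Prime)).card : ℝ) *
      Real.log (4 * (x : ℝ)) < (1 - 3 * δ) * (S.card * (Vz y)⁻¹))).card ≤
      ((Icc 1 G).filter (fun g => ((((S.image (fun s => C - s))).filter (fun s => (M * (c + w + g) - s).Prime)).card : ℝ) *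
      Real.log (2 * (C : ℝ)) < (1 - 3 * δ) * (S.card * (Vz y)⁻¹))).card := by
    apply card_le_card_of_injOn (fun n => n - w)
    · intro n hn
      rw [mem_coe, mem_filter, mem_Ioc] at hn
      rw [mem_coe, mem_filter, mem_Icc]
      refine ⟨by dsimp only; omega, lt_of_le_of_lt ?_ hn.2⟩
      have h1 : ((S.image (fun s => C - s)).filter (fun s => (M * (c + w + (n - w)) - s).Prime)).card ≤
          (S.filter (fun s => (s + M * n).Prime)).card := by
        rw [filter_image]
        refine card_image_le.trans (card_le_card ?_)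
        intro s hs
        rw [mem_filter] at hs ⊢
        refine ⟨hs.1, ?_⟩
        have h2 := mem_Icc.1 (hS hs.1)
        have h3 : M * (c + w + (n - w)) - (C - s) = s + M * n := by
          have h4 : c + w + (n - w) = c + n := by omega
          rw [h4, mul_add, ← hCd]
          omega
        rw [← h3]
        exact hs.2
      have h2 : Real.log (2 * (C : ℝ)) ≤ Real.log (4 * (x : ℝ)) := by
        apply Real.log_le_log (by positivity)
        have : (C : ℝ) ≤ 2 * x := by exact_mod_cast hC3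
        linarith
      have h3 : 0 ≤ Real.log (2 * (C : ℝ)) := Real.log_nonneg (by
        have : (1 : ℝ) ≤ C := by exact_mod_cast (by omega : 1 ≤ C)
        linarith)
      exact mul_le_mul (by exact_mod_cast h1) h2 h3 (Nat.cast_nonneg _)
    · intro a ha b hb hab
      rw [mem_coe, mem_filter, mem_Ioc] at ha hb
      simp only at hab
      omega
  exact_mod_cast hle

end Pool.Agent.V5helper54.CS
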