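import Pool.Agent.V5helper54.CS.Iter
import Pool.Agent.V5helper54.CS.Step

/-! # Dense sets and most translations in short windows: affine forms, several forms at once -/

set_option autoImplicit false

namespace Pool.Agent.V5helper54.CS

open Finset
open Pool.Agent.H373R2.T7
open Pool.Agent.Y877.SX
open Pool.Agent.V5helper51.SG

open Classical in
/-- the step for an affine form -/
theorem affine_step (A B : ℕ) (ε : ℝ) (hε : 0 < ε) (hε1 : ε ≤ 1) : ∃ K0 : ℕ, ∀ K1 : ℕ, ∃ D x0 : ℕ, ∀ x : ℕ, x0 ≤ x →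
    ∀ y : ℕ, K0 * Real.log (Real.log x) ≤ y → y ≤ K1 * Real.log (Real.log x) →
    ∀ S : Finset ℕ, S ⊆ Icc 1 x → (x : ℝ) ≤ S.card * Real.log x ^ A →
    ∀ b u : ℕ, 1 ≤ b → b ≤ B → u ≤ B * x → (∀ s ∈ S, ∀ p : ℕ, p.Prime → p ≤ y → ¬ p ∣ b * s + u) →
    ∀ w G : ℕ, primorial y * (w + G) ≤ x → (x : ℝ) ^ (1 / 3 : ℝ) * Real.log x ^ D ≤ primorial y * G →
    (((Ioc w (w + G)).filter (fun n => ((S.filter (fun s => (b * s + u + primorial y * n).Prime)).card : ℝ) <
      (1 - ε) * (S.card / (Vz y * Real.log x)))).card : ℝ) ≤ ε * G := by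
  obtain ⟨δ, hδd⟩ : ∃ δ, δ = ε / 8 := ⟨_, rfl⟩
  have hδ : 0 < δ := by rw [hδd]; positivity
  have hδ8 : δ ≤ 1 / 8 := by rw [hδd]; linarith
  obtain ⟨K0, hK0⟩ := plus_step (A + 1) δ hδ
  refine ⟨2 * K0, fun K1 => ?_⟩
  obtain ⟨D, x0, hx0⟩ := hK0 K1
  obtain ⟨x1, hx1⟩ := log_cmp (2 * B + 1) (by omega)
  obtain ⟨x2, hx2⟩ := ev_L' (max (2 * B + 1) (Real.log (4 * (2 * B + 1)) / δ))
  refine ⟨2 * D + 1, max x0 (max x1 (max x2 1)), fun x hx y hy1 hy2 S hS hSc b u hb1 hbB hu hSp w G hw hG => ?_⟩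
  have b1 : x0 ≤ x := le_trans (le_max_left _ _) hx
  have b2 : x1 ≤ x := le_trans (le_trans (le_max_left _ _) (le_max_right _ _)) hx
  have b3 : x2 ≤ x := le_trans (le_trans (le_trans (le_max_left _ _) (le_max_right _ _)) (le_max_right _ _)) hx
  have b4 : 1 ≤ x := le_trans (le_trans (le_trans (le_max_right _ _) (le_max_right _ _)) (le_max_right _ _)) hx
  have hxr : (1 : ℝ) ≤ x := by exact_mod_cast b4
  have hx0r : (0 : ℝ) < x := by linarith
  obtain ⟨X, hXd⟩ : ∃ X, X = (2 * B + 1) * x := ⟨_, rfl⟩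
  have hX1 : x ≤ X := by rw [hXd]; exact Nat.le_mul_of_pos_left x (by omega)
  obtain ⟨e1, e2, e3, e4⟩ := hx1 x b2 X hX1 hXd.le
  have hL := hx2 x b3
  have hXr0 : (0 : ℝ) < X := by exact_mod_cast (by omega : 0 < X)
  have he2 : (2 : ℝ) ≤ Real.exp 1 := by
    have := Real.exp_one_gt_d9
    linarith
  obtain ⟨L, hLd⟩ : ∃ L, L = Real.log (x : ℝ) := ⟨_, rfl⟩
  rw [← hLd] at e1 e2 e3 e4 hL hy1 hy2 hSc hG ⊢
  have hL2 : 2 ≤ L := by linarith
  have hL0 : 0 < L := by linarith
  have hLB : 2 * (B : ℝ) + 1 ≤ L := (le_max_left _ _).trans hL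
  have hLδ : Real.log (4 * (2 * B + 1)) / δ ≤ L := (le_max_right _ _).trans hL
  have hlog0 : 0 ≤ Real.log L := by
    rw [← Real.log_one]
    exact Real.log_le_log one_pos (by linarith)
  have hinj : Set.InjOn (fun s => b * s + u) (S : Set ℕ) := by
    intro a _ a' _ hab
    simp only at hab
    have h1 : b * a = b * a' := by omega
    exact Nat.eq_of_mul_eq_mul_left (by omega) h1
  have hcard : (S.image (fun s => b * s + u)).card = S.card := card_image_of_injOn hinj
  have hS0 : (0 : ℝ) ≤ S.card := Nat.cast_nonneg _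
  have key := hx0 X (b1.trans hX1) y (by
      have h1 : (K0 : ℝ) * Real.log (Real.log X) ≤ K0 * (2 * Real.log L) :=
        mul_le_mul_of_nonneg_left e4 (Nat.cast_nonneg _)
      have h2 : ((2 * K0 : ℕ) : ℝ) * Real.log L = K0 * (2 * Real.log L) := by push_cast; ring
      linarith) (by
      have h1 : (K1 : ℝ) * Real.log L ≤ K1 * Real.log (Real.log X) :=
        mul_le_mul_of_nonneg_left (Real.log_le_log hL0 e2) (Nat.cast_nonneg _)
      linarith) (S.image (fun s => b * s + u)) (by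
      intro a ha
      rw [mem_image] at ha
      obtain ⟨s, hs, rfl⟩ := ha
      have h1 := mem_Icc.1 (hS hs)
      have h2 : b * 1 ≤ b * s := Nat.mul_le_mul_left b h1.1
      have h3 : b * s ≤ B * x := Nat.mul_le_mul hbB h1.2
      have h4 : X = B * x + B * x + x := by rw [hXd]; ring
      rw [mem_Icc]
      omega) (by
      rw [hcard]
      calc (X : ℝ) = (2 * B + 1) * x := by rw [hXd]; push_cast; ring
        _ ≤ (2 * B + 1) * (S.card * L ^ A) := by gcongr
        _ = S.card * (L ^ A * (2 * B + 1)) := by ring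
        _ ≤ S.card * (L ^ A * L) := by gcongr
        _ = S.card * L ^ (A + 1) := by rw [pow_succ]
        _ ≤ S.card * Real.log X ^ (A + 1) := by gcongr) (by
      intro a ha p hp hpy hd
      rw [mem_image] at ha
      obtain ⟨s, hs, rfl⟩ := ha
      exact hSp s hs p hp hpy hd) w G (hw.trans hX1) (by
      refine le_trans ?_ hG
      have h1 : (X : ℝ) ^ (1 / 3 : ℝ) * Real.log X ^ D ≤ (x : ℝ) ^ (1 / 3 : ℝ) * L * (L ^ (2 * D)) := by
        have h2 : (X : ℝ) ^ (1 / 3 : ℝ) ≤ (x : ℝ) ^ (1 / 3 : ℝ) * L := by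
          have h3 : (X : ℝ) ≤ x * L ^ (3 : ℕ) := by
            calc (X : ℝ) = x * (2 * B + 1) := by rw [hXd]; push_cast; ring
              _ ≤ x * L := by gcongr
              _ ≤ x * L ^ (3 : ℕ) := by
                  apply mul_le_mul_of_nonneg_left _ hx0r.le
                  exact le_self_pow₀ (by linarith) (by norm_num)
          calc (X : ℝ) ^ (1 / 3 : ℝ) ≤ (x * L ^ (3 : ℕ)) ^ (1 / 3 : ℝ) := Real.rpow_le_rpow hXr0.le h3 (by norm_num)
            _ = (x : ℝ) ^ (1 / 3 : ℝ) * (L ^ (3 : ℕ)) ^ (1 / 3 : ℝ) := Real.mul_rpow hx0r.le (by positivity)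
            _ = _ := by
                rw [← Real.rpow_natCast L 3, ← Real.rpow_mul hL0.le]
                norm_num
        have h3 : Real.log X ^ D ≤ L ^ (2 * D) := by
          refine (pow_le_pow_left₀ (by linarith) e3 D).trans ?_
          rw [pow_mul]
          apply pow_le_pow_left₀ (by positivity)
          nlinarith
        exact mul_le_mul h2 h3 (pow_nonneg (by linarith) _) (by positivity)
      refine h1.trans (le_of_eq ?_)
      rw [pow_succ]
      ring)
  rw [hcard] at key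
  have hG0 : (0 : ℝ) ≤ G := Nat.cast_nonneg G
  have hfin : 2 * δ * (G : ℝ) ≤ ε * G := by
    apply mul_le_mul_of_nonneg_right _ hG0
    rw [hδd]
    linarith
  refine le_trans ?_ (key.trans hfin)
  have hVy := Vz_pos y
  have hle : ((Ioc w (w + G)).filter (fun n => ((S.filter (fun s => (b * s + u + primorial y * n).Prime)).card : ℝ) <
      (1 - ε) * (S.card / (Vz y * L)))).card ≤
      ((Ioc w (w + G)).filter (fun n => (((S.image (fun s => b * s + u)).filter
        (fun s => (s + primorial y * n).Prime)).card : ℝ) * Real.log (4 * (X : ℝ)) < (1 - 3 * δ) * (S.card * (Vz y)⁻¹))).card := by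
    apply card_le_card
    intro n hn
    rw [mem_filter] at hn ⊢
    refine ⟨hn.1, ?_⟩
    obtain ⟨c, hc⟩ : ∃ c : ℝ, c = ((S.filter (fun s => (b * s + u + primorial y * n).Prime)).card : ℝ) := ⟨_, rfl⟩
    have hc0 : 0 ≤ c := by rw [hc]; exact Nat.cast_nonneg _
    have h1 : (((S.image (fun s => b * s + u)).filter (fun s => (s + primorial y * n).Prime)).card : ℝ) ≤ c := by
      rw [filter_image, hc]
      exact_mod_cast card_image_le
    have h2 := hn.2
    rw [← hc] at h2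
    have h3 : Real.log (4 * (X : ℝ)) ≤ (1 + δ) * L := by
      have h4 : 4 * (X : ℝ) = (4 * (2 * B + 1)) * x := by rw [hXd]; push_cast; ring
      rw [h4, Real.log_mul (by positivity) hx0r.ne', ← hLd]
      rw [div_le_iff₀ hδ] at hLδ
      linarith
    have h5 : 0 ≤ Real.log (4 * (X : ℝ)) := Real.log_nonneg (by
      have : (1 : ℝ) ≤ X := by exact_mod_cast (by omega : 1 ≤ X)
      linarith)
    calc (((S.image (fun s => b * s + u)).filter (fun s => (s + primorial y * n).Prime)).card : ℝ) * Real.log (4 * (X : ℝ))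
        ≤ c * ((1 + δ) * L) := mul_le_mul h1 h3 h5 hc0
      _ < ((1 - ε) * (S.card / (Vz y * L))) * ((1 + δ) * L) := mul_lt_mul_of_pos_right h2 (by positivity)
      _ = (1 - ε) * (1 + δ) * (S.card * (Vz y)⁻¹) := by field_simp
      _ ≤ (1 - 3 * δ) * (S.card * (Vz y)⁻¹) := by
          apply mul_le_mul_of_nonneg_right _ (by positivity)
          have h17 : ε = 8 * δ := by rw [hδd]; ring
          rw [h17]
          nlinarith
  exact_mod_cast hle

open Classical in
/-- several affine forms at once -/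
theorem affine_all (k A B : ℕ) (ε : ℝ) (hε : 0 < ε) (hε1 : ε ≤ 1) : ∃ K0 : ℕ, ∀ K1 : ℕ, ∃ D x0 : ℕ, ∀ x : ℕ, x0 ≤ x →
    ∀ y : ℕ, K0 * Real.log (Real.log x) ≤ y → y ≤ K1 * Real.log (Real.log x) →
    ∀ S : Finset ℕ, S ⊆ Icc 1 x → (x : ℝ) ≤ S.card * Real.log x ^ A →
    ∀ b u : Fin k → ℕ, (∀ i, 1 ≤ b i ∧ b i ≤ B ∧ u i ≤ B * x) →
    (∀ i, ∀ s ∈ S, ∀ p : ℕ, p.Prime → p ≤ y → ¬ p ∣ b i * s + u i) →
    ∀ w G : Fin k → ℕ, (∀ i, primorial y * (w i + G i) ≤ x ∧
      (x : ℝ) ^ (1 / 3 : ℝ) * Real.log x ^ D ≤ primorial y * G i) →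
    (((Fintype.piFinset fun i => Ioc (w i) (w i + G i)).filter (fun n =>
      ((S.filter (fun s => ∀ i, (b i * s + u i + primorial y * n i).Prime)).card : ℝ) <
      (1 - ε) * (S.card / (Vz y * Real.log x) ^ k))).card : ℝ) ≤ ε * ∏ i, (G i : ℝ) := by
  obtain ⟨η, hηd⟩ : ∃ η : ℝ, η = ε / (2 * (k + 1)) := ⟨_, rfl⟩
  have hk0 : (0 : ℝ) ≤ k := Nat.cast_nonneg k
  have hη : 0 < η := by rw [hηd]; positivity
  have hη1 : η ≤ 1 / 2 := by
    rw [hηd, div_le_div_iff₀ (by positivity) (by norm_num)]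
    nlinarith
  have hkη : k * η ≤ ε := by
    rw [hηd, ← mul_div_assoc, div_le_iff₀ (by positivity)]
    nlinarith
  obtain ⟨K0, hK0⟩ := affine_step (A + 2 * k) B η hη (by linarith)
  refine ⟨K0, fun K1 => ?_⟩
  obtain ⟨D, x0, hx0⟩ := hK0 K1
  obtain ⟨x1, hx1⟩ := log_cmp 1 le_rfl
  obtain ⟨x2, hx2⟩ := ev_L' (max 2 (2 * K1))
  obtain ⟨x3, hx3⟩ := ev_L' (4 * (K1 : ℝ) ^ 2 + 4)
  refine ⟨D, max x0 (max x1 (max x2 (max x3 1))), fun x hx y hy1 hy2 S hS hSc b u hbu hSp w G hwG => ?_⟩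
  have b1 : x0 ≤ x := le_trans (le_max_left _ _) hx
  have b2 : x1 ≤ x := le_trans (le_trans (le_max_left _ _) (le_max_right _ _)) hx
  have b3 : x2 ≤ x := le_trans (le_trans (le_trans (le_max_left _ _) (le_max_right _ _)) (le_max_right _ _)) hx
  have b3' : x3 ≤ x := le_trans (le_trans (le_trans (le_trans (le_max_left _ _) (le_max_right _ _)) (le_max_right _ _))
    (le_max_right _ _)) hx
  have b4 : 1 ≤ x := le_trans (le_trans (le_trans (le_trans (le_max_right _ _) (le_max_right _ _)) (le_max_right _ _))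
    (le_max_right _ _)) hx
  obtain ⟨e1, -, -, -⟩ := hx1 x b2 x le_rfl (by omega)
  have hL := hx2 x b3
  have hL4 := hx3 x b3'
  have key := hx0 x b1 y hy1 hy2
  obtain ⟨L, hLd⟩ : ∃ L, L = Real.log (x : ℝ) := ⟨_, rfl⟩
  rw [← hLd] at e1 hL hL4 hy1 hy2 hSc hwG key ⊢
  have hL2 : 2 ≤ L := (le_max_left _ _).trans hL
  have hL0 : 0 < L := by linarith
  have hxr : (1 : ℝ) ≤ x := by exact_mod_cast b4
  have hVy := Vz_pos y
  have hVy1 := Vz_le_one y
  -- `1 ≤ V L`
  have hVL : 1 ≤ Vz y * L := by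
    rcases Nat.eq_zero_or_pos y with h0 | h0
    · have h1 : Vz y = 1 := by
        rw [h0]
        unfold Vz
        have : pz 0 = ∅ := by
          unfold pz
          ext p
          simp
        rw [this, prod_empty]
      rw [h1]
      linarith
    · have h1 := Vz_inv_le y h0
      have h2 : (y : ℝ) ≤ L := by
        have h3 : Real.log L ≤ √L * 2 := by
          have h4 : Real.log L = 2 * Real.log (√L) := by
            rw [Real.log_sqrt hL0.le]
            ring
          have h5 : Real.log (√L) ≤ √L := (Real.log_le_sub_one_of_pos (Real.sqrt_pos.2 hL0)).trans (by linarith)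
          rw [h4]
          linarith
        have hsq : √L * √L = L := Real.mul_self_sqrt hL0.le
        have h2K : 2 * (K1 : ℝ) ≤ √L := by
          apply Real.le_sqrt_of_sq_le
          nlinarith
        have h5 : (K1 : ℝ) * Real.log L ≤ L := by
          calc (K1 : ℝ) * Real.log L ≤ K1 * (√L * 2) := mul_le_mul_of_nonneg_left h3 (Nat.cast_nonneg _)
            _ = (2 * K1) * √L := by ring
            _ ≤ √L * √L := mul_le_mul_of_nonneg_right h2K (Real.sqrt_nonneg _)
            _ = L := hsq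
        linarith
      have h3 : (Vz y)⁻¹ ≤ L := h1.trans h2
      rw [inv_le_comm₀ hVy hL0] at h3
      calc (1 : ℝ) = L⁻¹ * L := by field_simp
        _ ≤ Vz y * L := mul_le_mul_of_nonneg_right h3 hL0.le
  have hVLL : Vz y * L ≤ L := mul_le_of_le_one_left hL0.le hVy1
  obtain ⟨ρ, hρd⟩ : ∃ ρ : ℝ, ρ = (1 - η) / (Vz y * L) := ⟨_, rfl⟩
  have hVL0 : 0 < Vz y * L := by positivity
  have hρ0 : 0 ≤ ρ := by rw [hρd]; exact div_nonneg (by linarith) hVL0.le
  have hρ1 : ρ ≤ 1 := by
    rw [hρd, div_le_one hVL0]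
    linarith
  have hρL : 1 / L ^ 2 ≤ ρ := by
    rw [hρd, div_le_div_iff₀ (by positivity) hVL0, one_mul]
    nlinarith
  have hS0 : (0 : ℝ) ≤ S.card := Nat.cast_nonneg _
  have hit := iter η ρ (x / L ^ (A + 2 * k)) hη.le hρ0 hρ1 k (fun i => Ioc (w i) (w i + G i))
    (fun i n s => (b i * s + u i + primorial y * n).Prime) S (by
      intro i T hT hTc
      have h1 := key T (hT.trans hS) (by
        rwa [div_le_iff₀ (by positivity)] at hTc) (b i) (u i) (hbu i).1 (hbu i).2.1 (hbu i).2.2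
        (fun s hs => hSp i s (hT hs)) (w i) (G i) (hwG i).1 (hwG i).2
      have h2 : (1 - η) * ((T.card : ℝ) / (Vz y * L)) = ρ * T.card := by
        rw [hρd]
        ring
      rw [h2] at h1
      rw [Nat.card_Ioc, Nat.add_sub_cancel_left]
      convert h1) (by
      rw [div_le_iff₀ (by positivity)]
      have h1 : (1 / L ^ 2) ^ k ≤ ρ ^ k := pow_le_pow_left₀ (by positivity) hρL k
      have h2 : (1 / L ^ 2) ^ k * L ^ (A + 2 * k) = L ^ A := by
        rw [pow_add, pow_mul, div_pow, one_pow]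
        field_simp
      calc (x : ℝ) ≤ S.card * L ^ A := hSc
        _ = S.card * ((1 / L ^ 2) ^ k * L ^ (A + 2 * k)) := by rw [h2]
        _ ≤ S.card * (ρ ^ k * L ^ (A + 2 * k)) := by gcongr
        _ = _ := by ring)
  have hP0 : (0 : ℝ) ≤ ∏ i, (G i : ℝ) := prod_nonneg fun _ _ => Nat.cast_nonneg _
  have hcardG : ∏ i, (((Ioc (w i) (w i + G i)).card : ℕ) : ℝ) = ∏ i, (G i : ℝ) := by
    apply prod_congr rfl
    intro i _
    rw [Nat.card_Ioc, Nat.add_sub_cancel_left]
  rw [hcardG] at hit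
  refine le_trans ?_ (hit.trans (mul_le_mul_of_nonneg_right hkη hP0))
  have hle : ((Fintype.piFinset fun i => Ioc (w i) (w i + G i)).filter (fun n =>
      ((S.filter (fun s => ∀ i, (b i * s + u i + primorial y * n i).Prime)).card : ℝ) <
      (1 - ε) * (S.card / (Vz y * L) ^ k))).card ≤
      ((Fintype.piFinset fun i => Ioc (w i) (w i + G i)).filter (fun n =>
      ((S.filter (fun s => ∀ i, (b i * s + u i + primorial y * n i).Prime)).card : ℝ) < ρ ^ k * S.card)).card := by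
    apply card_le_card
    intro n hn
    rw [mem_filter] at hn ⊢
    refine ⟨hn.1, hn.2.trans_le ?_⟩
    have h1 : 1 - ε ≤ (1 - η) ^ k := by
      have h2 := one_add_mul_le_pow (a := -η) (by linarith) k
      have h3 : (1 + -η) = 1 - η := by ring
      rw [h3] at h2
      linarith
    have h2 : ρ ^ k * (S.card : ℝ) = (1 - η) ^ k * (S.card / (Vz y * L) ^ k) := by
      rw [hρd, div_pow]
      ring
    rw [h2]
    exact mul_le_mul_of_nonneg_right h1 (by positivity)
  have hle' : (((Fintype.piFinset fun i => Ioc (w i) (w i + G i)).filter (fun n =>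
      ((S.filter (fun s => ∀ i, (b i * s + u i + primorial y * n i).Prime)).card : ℝ) <
      (1 - ε) * (S.card / (Vz y * L) ^ k))).card : ℝ) ≤
      (((Fintype.piFinset fun i => Ioc (w i) (w i + G i)).filter (fun n =>
      ((S.filter (fun s => ∀ i, (b i * s + u i + primorial y * n i).Prime)).card : ℝ) < ρ ^ k * S.card)).card : ℝ) := by
    exact_mod_cast hle
  refine le_trans (le_of_eq ?_) (hle'.trans (le_of_eq ?_))
  · congr!
  · congr!

end Pool.Agent.V5helper54.CS
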