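import Pool.Agent.V5helper54.CS.IterA
import Pool.Agent.V5helper54.CS.Step2

/-! # Several affine forms whose coefficients may depend on the parameters chosen before -/

set_option autoImplicit false

namespace Pool.Agent.V5helper54.CS

open Finset
open Pool.Agent.H373R2.T7
open Pool.Agent.Y877.SX
open Pool.Agent.V5helper51.SG

/-- `1 ≤ V(y) log x` -/
lemma one_le_VL (K1 : ℕ) : ∃ x0 : ℕ, ∀ x : ℕ, x0 ≤ x → ∀ y : ℕ, (y : ℝ) ≤ K1 * Real.log (Real.log x) →
    2 ≤ Real.log x ∧ 1 ≤ Vz y * Real.log x := by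
  obtain ⟨x2, hx2⟩ := ev_L' (max 2 (2 * K1))
  obtain ⟨x3, hx3⟩ := ev_L' (4 * (K1 : ℝ) ^ 2 + 4)
  refine ⟨max x2 x3, fun x hx y hy2 => ?_⟩
  have hL := hx2 x (le_trans (le_max_left _ _) hx)
  have hL4 := hx3 x (le_trans (le_max_right _ _) hx)
  obtain ⟨L, hLd⟩ : ∃ L, L = Real.log (x : ℝ) := ⟨_, rfl⟩
  rw [← hLd] at hL hL4 hy2 ⊢
  have hL2 : 2 ≤ L := (le_max_left _ _).trans hL
  have hL0 : 0 < L := by linarith
  have hVy := Vz_pos y
  refine ⟨hL2, ?_⟩
  rcases Nat.eq_zero_or_pos y with h0 | h0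
  · have h1 : Vz y = 1 := by
      rw [h0]
      unfold Vz
      have : pz 0 = ∅ := by
        unfold pz
        ext p
        simp
      rw [this, prod_empty]
    rw [h1]
    linarith
  · have h1 := Vz_inv_le y h0
    have h2 : (y : ℝ) ≤ L := by
      have h3 : Real.log L ≤ √L * 2 := by
        have h4 : Real.log L = 2 * Real.log (√L) := by
          rw [Real.log_sqrt hL0.le]
          ring
        have h5 : Real.log (√L) ≤ √L := (Real.log_le_sub_one_of_pos (Real.sqrt_pos.2 hL0)).trans (by linarith)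
        rw [h4]
        linarith
      have hsq : √L * √L = L := Real.mul_self_sqrt hL0.le
      have h2K : 2 * (K1 : ℝ) ≤ √L := by
        apply Real.le_sqrt_of_sq_le
        nlinarith
      have h5 : (K1 : ℝ) * Real.log L ≤ L := by
        calc (K1 : ℝ) * Real.log L ≤ K1 * (√L * 2) := mul_le_mul_of_nonneg_left h3 (Nat.cast_nonneg _)
          _ = (2 * K1) * √L := by ring
          _ ≤ √L * √L := mul_le_mul_of_nonneg_right h2K (Real.sqrt_nonneg _)
          _ = L := hsq
      linarith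
    have h3 : (Vz y)⁻¹ ≤ L := h1.trans h2
    rw [inv_le_comm₀ hVy hL0] at h3
    calc (1 : ℝ) = L⁻¹ * L := by field_simp
      _ ≤ Vz y * L := mul_le_mul_of_nonneg_right h3 hL0.le

open Classical in
/-- several affine forms at once, the coefficients may depend on the earlier parameters (lists) -/
theorem adapt_list (k A B : ℕ) (ε : ℝ) (hε : 0 < ε) (hε1 : ε ≤ 1) : ∃ K0 : ℕ, ∀ K1 : ℕ, ∃ D x0 : ℕ, ∀ x : ℕ, x0 ≤ x →
    ∀ y : ℕ, K0 * Real.log (Real.log x) ≤ y → y ≤ K1 * Real.log (Real.log x) →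
    ∀ S : Finset ℕ, S ⊆ Icc 1 x → (x : ℝ) ≤ S.card * Real.log x ^ A →
    ∀ w G : Fin k → ℕ, (∀ i, primorial y * (w i + G i) ≤ x ∧
      (x : ℝ) ^ (1 / 3 : ℝ) * Real.log x ^ D ≤ primorial y * G i) →
    ∀ b u : List ℕ → ℕ, (∀ (l : List ℕ) (hl : l.length < k),
      (∀ (j : ℕ) (hj : j < l.length), l[j] ∈ Ioc (w ⟨j, hj.trans hl⟩) (w ⟨j, hj.trans hl⟩ + G ⟨j, hj.trans hl⟩)) →
      1 ≤ b l ∧ b l ≤ B ∧ u l ≤ B * x ∧ ∀ s ∈ S, ∀ p : ℕ, p.Prime → p ≤ y → ¬ p ∣ b l * s + u l) →
    (((Fintype.piFinset fun i => Ioc (w i) (w i + G i)).filter (fun n =>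
      ((S.filter (fun s => ∀ i : Fin k, (b ((List.ofFn n).take i) * s + u ((List.ofFn n).take i) +
        primorial y * n i).Prime)).card : ℝ) <
      (1 - ε) * (S.card / (Vz y * Real.log x) ^ k))).card : ℝ) ≤ ε * ∏ i, (G i : ℝ) := by
  obtain ⟨η, hηd⟩ : ∃ η : ℝ, η = ε / (2 * (k + 1)) := ⟨_, rfl⟩
  have hk0 : (0 : ℝ) ≤ k := Nat.cast_nonneg k
  have hη : 0 < η := by rw [hηd]; positivity
  have hη1 : η ≤ 1 / 2 := by
    rw [hηd, div_le_div_iff₀ (by positivity) (by norm_num)]
    nlinarith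
  have hkη : k * η ≤ ε := by
    rw [hηd, ← mul_div_assoc, div_le_iff₀ (by positivity)]
    nlinarith
  obtain ⟨K0, hK0⟩ := affine_step (A + 2 * k) B η hη (by linarith)
  refine ⟨K0, fun K1 => ?_⟩
  obtain ⟨D, x0, hx0⟩ := hK0 K1
  obtain ⟨x1, hx1⟩ := one_le_VL K1
  refine ⟨D, max x0 (max x1 1), fun x hx y hy1 hy2 S hS hSc w G hwG b u hbu => ?_⟩
  have b1 : x0 ≤ x := le_trans (le_max_left _ _) hx
  have b2 : x1 ≤ x := le_trans (le_trans (le_max_left _ _) (le_max_right _ _)) hx
  have b4 : 1 ≤ x := le_trans (le_trans (le_max_right _ _) (le_max_right _ _)) hx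
  obtain ⟨hL2, hVL⟩ := hx1 x b2 y hy2
  have key := hx0 x b1 y hy1 hy2
  obtain ⟨L, hLd⟩ : ∃ L, L = Real.log (x : ℝ) := ⟨_, rfl⟩
  rw [← hLd] at hL2 hVL hy1 hy2 hSc hwG key ⊢
  have hL0 : 0 < L := by linarith
  have hxr : (1 : ℝ) ≤ x := by exact_mod_cast b4
  have hVy := Vz_pos y
  have hVy1 := Vz_le_one y
  have hVLL : Vz y * L ≤ L := mul_le_of_le_one_left hL0.le hVy1
  obtain ⟨ρ, hρd⟩ : ∃ ρ : ℝ, ρ = (1 - η) / (Vz y * L) := ⟨_, rfl⟩
  have hVL0 : 0 < Vz y * L := by positivity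
  have hρ0 : 0 ≤ ρ := by rw [hρd]; exact div_nonneg (by linarith) hVL0.le
  have hρ1 : ρ ≤ 1 := by
    rw [hρd, div_le_one hVL0]
    linarith
  have hρL : 1 / L ^ 2 ≤ ρ := by
    rw [hρd, div_le_div_iff₀ (by positivity) hVL0, one_mul]
    nlinarith
  have hS0 : (0 : ℝ) ≤ S.card := Nat.cast_nonneg _
  have hit := iterA η ρ (x / L ^ (A + 2 * k)) hη.le hρ0 hρ1 k (fun i => Ioc (w i) (w i + G i))
    (fun l n s => (b l * s + u l + primorial y * n).Prime) S (by
      intro l hl hlW T hT hTc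
      obtain ⟨c1, c2, c3, c4⟩ := hbu l hl hlW
      have h1 := key T (hT.trans hS) (by
        rwa [div_le_iff₀ (by positivity)] at hTc) (b l) (u l) c1 c2 c3
        (fun s hs => c4 s (hT hs)) (w ⟨l.length, hl⟩) (G ⟨l.length, hl⟩) (hwG _).1 (hwG _).2
      have h2 : (1 - η) * ((T.card : ℝ) / (Vz y * L)) = ρ * T.card := by
        rw [hρd]
        ring
      rw [h2] at h1
      rw [Nat.card_Ioc, Nat.add_sub_cancel_left]
      convert h1) (by
      rw [div_le_iff₀ (by positivity)]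
      have h1 : (1 / L ^ 2) ^ k ≤ ρ ^ k := pow_le_pow_left₀ (by positivity) hρL k
      have h2 : (1 / L ^ 2) ^ k * L ^ (A + 2 * k) = L ^ A := by
        rw [pow_add, pow_mul, div_pow, one_pow]
        field_simp
      calc (x : ℝ) ≤ S.card * L ^ A := hSc
        _ = S.card * ((1 / L ^ 2) ^ k * L ^ (A + 2 * k)) := by rw [h2]
        _ ≤ S.card * (ρ ^ k * L ^ (A + 2 * k)) := by gcongr
        _ = _ := by ring)
  have hP0 : (0 : ℝ) ≤ ∏ i, (G i : ℝ) := prod_nonneg fun _ _ => Nat.cast_nonneg _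
  have hcardG : ∏ i, (((Ioc (w i) (w i + G i)).card : ℕ) : ℝ) = ∏ i, (G i : ℝ) := by
    apply prod_congr rfl
    intro i _
    rw [Nat.card_Ioc, Nat.add_sub_cancel_left]
  rw [hcardG] at hit
  refine le_trans ?_ (hit.trans (mul_le_mul_of_nonneg_right hkη hP0))
  have hle : ((Fintype.piFinset fun i => Ioc (w i) (w i + G i)).filter (fun n =>
      ((S.filter (fun s => ∀ i : Fin k, (b ((List.ofFn n).take i) * s + u ((List.ofFn n).take i) +
        primorial y * n i).Prime)).card : ℝ) <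
      (1 - ε) * (S.card / (Vz y * L) ^ k))).card ≤
      ((Fintype.piFinset fun i => Ioc (w i) (w i + G i)).filter (fun n =>
      ((S.filter (fun s => ∀ i : Fin k, (b ((List.ofFn n).take i) * s + u ((List.ofFn n).take i) +
        primorial y * n i).Prime)).card : ℝ) < ρ ^ k * S.card)).card := by
    apply card_le_card
    intro n hn
    rw [mem_filter] at hn ⊢
    refine ⟨hn.1, hn.2.trans_le ?_⟩
    have h1 : 1 - ε ≤ (1 - η) ^ k := by
      have h2 := one_add_mul_le_pow (a := -η) (by linarith) k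
      have h3 : (1 + -η) = 1 - η := by ring
      rw [h3] at h2
      linarith
    have h2 : ρ ^ k * (S.card : ℝ) = (1 - η) ^ k * (S.card / (Vz y * L) ^ k) := by
      rw [hρd, div_pow]
      ring
    rw [h2]
    exact mul_le_mul_of_nonneg_right h1 (by positivity)
  have hle' : (((Fintype.piFinset fun i => Ioc (w i) (w i + G i)).filter (fun n =>
      ((S.filter (fun s => ∀ i : Fin k, (b ((List.ofFn n).take i) * s + u ((List.ofFn n).take i) +
        primorial y * n i).Prime)).card : ℝ) <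
      (1 - ε) * (S.card / (Vz y * L) ^ k))).card : ℝ) ≤
      (((Fintype.piFinset fun i => Ioc (w i) (w i + G i)).filter (fun n =>
      ((S.filter (fun s => ∀ i : Fin k, (b ((List.ofFn n).take i) * s + u ((List.ofFn n).take i) +
        primorial y * n i).Prime)).card : ℝ) < ρ ^ k * S.card)).card : ℝ) := by
    exact_mod_cast hle
  refine le_trans (le_of_eq ?_) (hle'.trans (le_of_eq ?_))
  · congr!
  · congr!

open Classical in
/-- **Several affine forms at once**, the coefficients may depend on the earlier parameters. -/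
theorem affine_adapt (k A B : ℕ) (ε : ℝ) (hε : 0 < ε) (hε1 : ε ≤ 1) : ∃ K0 : ℕ, ∀ K1 : ℕ, ∃ D x0 : ℕ, ∀ x : ℕ, x0 ≤ x →
    ∀ y : ℕ, K0 * Real.log (Real.log x) ≤ y → y ≤ K1 * Real.log (Real.log x) →
    ∀ S : Finset ℕ, S ⊆ Icc 1 x → (x : ℝ) ≤ S.card * Real.log x ^ A →
    ∀ w G : Fin k → ℕ, (∀ i, primorial y * (w i + G i) ≤ x ∧
      (x : ℝ) ^ (1 / 3 : ℝ) * Real.log x ^ D ≤ primorial y * G i) →
    ∀ b u : Fin k → (Fin k → ℕ) → ℕ,
      (∀ i, ∀ v v' : Fin k → ℕ, (∀ j < i, v j = v' j) → b i v = b i v' ∧ u i v = u i v') →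
      (∀ i, ∀ v : Fin k → ℕ, (∀ j, w j < v j ∧ v j ≤ w j + G j) → 1 ≤ b i v ∧ b i v ≤ B ∧ u i v ≤ B * x ∧
        ∀ s ∈ S, ∀ p : ℕ, p.Prime → p ≤ y → ¬ p ∣ b i v * s + u i v) →
    (((Fintype.piFinset fun i => Ioc (w i) (w i + G i)).filter (fun n =>
      ((S.filter (fun s => ∀ i : Fin k, (b i n * s + u i n + primorial y * n i).Prime)).card : ℝ) <
      (1 - ε) * (S.card / (Vz y * Real.log x) ^ k))).card : ℝ) ≤ ε * ∏ i, (G i : ℝ) := by
  obtain ⟨K0, hK0⟩ := adapt_list k A B ε hε hε1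
  refine ⟨K0, fun K1 => ?_⟩
  obtain ⟨D, x0, hx0⟩ := hK0 K1
  refine ⟨D, max x0 3, fun x hx y hy1 hy2 S hS hSc w G hwG b u hdep hbu => ?_⟩
  have hx3 : 3 ≤ x := le_trans (le_max_right _ _) hx
  have hG : ∀ i, 1 ≤ G i := by
    intro i
    rcases Nat.eq_zero_or_pos (G i) with h | h
    · exfalso
      have h1 := (hwG i).2
      rw [h, Nat.cast_zero, mul_zero] at h1
      have h2 : 0 < (x : ℝ) ^ (1 / 3 : ℝ) * Real.log x ^ D := by
        have h3 : (3 : ℝ) ≤ x := by exact_mod_cast hx3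
        have h4 : 0 < Real.log x := Real.log_pos (by linarith)
        positivity
      linarith
    · exact h
  obtain ⟨ext, hext⟩ : ∃ ext : List ℕ → (Fin k → ℕ), ∀ l, ext l = fun j : Fin k => if h : (j : ℕ) < l.length then l[(j : ℕ)] else w j + 1 :=
    ⟨_, fun _ => rfl⟩
  have key := hx0 x (le_trans (le_max_left _ _) hx) y hy1 hy2 S hS hSc w G hwG
    (fun l => if hl : l.length < k then b ⟨l.length, hl⟩ (ext l) else 1)
    (fun l => if hl : l.length < k then u ⟨l.length, hl⟩ (ext l) else 0) (by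
      intro l hl hlW
      simp only [dif_pos hl]
      apply hbu
      intro j
      rw [hext]
      simp only
      split_ifs with h
      · have h1 := hlW j h
        rw [mem_Ioc] at h1
        exact h1
      · have := hG j
        constructor <;> omega)
  refine le_trans (le_of_eq ?_) key
  congr 2
  apply filter_congr
  intro n _
  have hval : ∀ i : Fin k, (fun l : List ℕ => if hl : l.length < k then b ⟨l.length, hl⟩ (ext l) else 1) ((List.ofFn n).take i) = b i n ∧
      (fun l : List ℕ => if hl : l.length < k then u ⟨l.length, hl⟩ (ext l) else 0) ((List.ofFn n).take i) = u i n := by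
    intro i
    have hlen : ((List.ofFn n).take i).length = i := by
      rw [List.length_take, List.length_ofFn]
      omega
    have hlt : ((List.ofFn n).take i).length < k := by rw [hlen]; exact i.2
    have hi : (⟨((List.ofFn n).take i).length, hlt⟩ : Fin k) = i := Fin.ext hlen
    simp only [dif_pos hlt, hi]
    have h1 := hdep i (ext ((List.ofFn n).take i)) n (by
      intro j hj
      have hj' : (j : ℕ) < ((List.ofFn n).take i).length := by rw [hlen]; exact hj
      rw [hext]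
      simp only [dif_pos hj']
      rw [List.getElem_take, List.getElem_ofFn])
    exact h1
  have hfil : S.filter (fun s => ∀ i : Fin k, (b i n * s + u i n + primorial y * n i).Prime) =
      S.filter (fun s => ∀ i : Fin k, ((fun l : List ℕ => if hl : l.length < k then b ⟨l.length, hl⟩ (ext l) else 1)
        ((List.ofFn n).take i) * s + (fun l : List ℕ => if hl : l.length < k then u ⟨l.length, hl⟩ (ext l) else 0)
        ((List.ofFn n).take i) + primorial y * n i).Prime) := by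
    apply filter_congr
    intro s _
    constructor
    · intro h i
      rw [(hval i).1, (hval i).2]
      exact h i
    · intro h i
      have := h i
      rw [(hval i).1, (hval i).2] at this
      exact this
  rw [hfil]

end Pool.Agent.V5helper54.CS
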