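import Mathlib

/-! # Iteration of a step which keeps a proportion of every dense set for most parameters -/

set_option autoImplicit false

namespace Pool.Agent.V5helper54.CS

open Finset

open Classical in
/-- If for every `i` and every subset `T` of `S` with at least `t` elements most parameters `n ∈ W i` keep the proportion `ρ`
of `T`, then most vectors of parameters keep the proportion `ρ ^ k` of `S`. -/
theorem iter {α : Type*} (δ ρ t : ℝ) (hδ : 0 ≤ δ) (hρ : 0 ≤ ρ) (hρ1 : ρ ≤ 1) : ∀ (k : ℕ) (W : Fin k → Finset ℕ)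
    (R : Fin k → ℕ → α → Prop) (S : Finset α),
    (∀ i, ∀ T ⊆ S, t ≤ (T.card : ℝ) →
      (((W i).filter (fun n => ((T.filter (fun a => R i n a)).card : ℝ) < ρ * T.card)).card : ℝ) ≤ δ * (W i).card) →
    t ≤ ρ ^ k * S.card →
    (((Fintype.piFinset W).filter (fun v => ((S.filter (fun a => ∀ i, R i (v i) a)).card : ℝ) < ρ ^ k * S.card)).card : ℝ) ≤
      k * δ * ∏ i, ((W i).card : ℝ) := by
  intro k
  induction k with
  | zero =>
    intro W R S _ _
    have h1 : (Fintype.piFinset W).filter (fun v => ((S.filter (fun a => ∀ i, R i (v i) a)).card : ℝ) < ρ ^ 0 * S.card) = ∅ := by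
      rw [filter_eq_empty_iff]
      intro v _
      rw [not_lt, pow_zero, one_mul]
      have h2 : S.filter (fun a => ∀ i, R i (v i) a) = S := by
        rw [filter_eq_self]
        intro a _ i
        exact i.elim0
      rw [h2]
    rw [h1]
    simp
  | succ k ih =>
    intro W R S hstep ht
    obtain ⟨P, hP⟩ : ∃ P : ℝ, P = ∏ i : Fin k, ((W i.succ).card : ℝ) := ⟨_, rfl⟩
    have hP0 : 0 ≤ P := by rw [hP]; exact prod_nonneg fun _ _ => Nat.cast_nonneg _
    have hprod : ∏ i, ((W i).card : ℝ) = (W 0).card * P := by rw [Fin.prod_univ_succ, hP]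
    have hS0 : (0 : ℝ) ≤ S.card := Nat.cast_nonneg _
    have htS : t ≤ (S.card : ℝ) := ht.trans (mul_le_of_le_one_left hS0 (pow_le_one₀ hρ hρ1))
    obtain ⟨B0, hB0⟩ : ∃ B0, B0 = (W 0).filter (fun n => ((S.filter (fun a => R 0 n a)).card : ℝ) < ρ * S.card) := ⟨_, rfl⟩
    have hB0c : (B0.card : ℝ) ≤ δ * (W 0).card := by rw [hB0]; exact hstep 0 S (Subset.refl _) htS
    obtain ⟨Bd, hBd⟩ : ∃ Bd, Bd = (Fintype.piFinset W).filter
      (fun v => ((S.filter (fun a => ∀ i, R i (v i) a)).card : ℝ) < ρ ^ (k + 1) * S.card) := ⟨_, rfl⟩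
    rw [← hBd]
    have hmaps : ∀ v ∈ Bd, v 0 ∈ W 0 := by
      intro v hv
      rw [hBd, mem_filter, Fintype.mem_piFinset] at hv
      exact hv.1 0
    have hcard : (Bd.card : ℝ) = ∑ n ∈ W 0, ((Bd.filter (fun v => v 0 = n)).card : ℝ) := by
      have := card_eq_sum_card_fiberwise (s := Bd) (t := W 0) (f := fun v : Fin (k + 1) → ℕ => v 0) (fun v hv => hmaps v hv)
      exact_mod_cast this
    have htail : ∀ n, ∀ U : Finset (Fin k → ℕ), (∀ v ∈ Bd, v 0 = n → Fin.tail v ∈ U) →
        (Bd.filter (fun v => v 0 = n)).card ≤ U.card := by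
      intro n U hU
      apply card_le_card_of_injOn (fun v => Fin.tail v)
      · intro v hv
        rw [mem_coe, mem_filter] at hv
        exact hU v hv.1 hv.2
      · intro v hv v' hv' h
        rw [mem_coe, mem_filter] at hv hv'
        simp only at h
        rw [← Fin.cons_self_tail v, ← Fin.cons_self_tail v', h, hv.2, hv'.2]
    have hbad : ∀ n ∈ B0, ((Bd.filter (fun v => v 0 = n)).card : ℝ) ≤ P := by
      intro n _
      have h1 := htail n (Fintype.piFinset fun i : Fin k => W i.succ) (by
        intro v hv _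
        rw [hBd, mem_filter, Fintype.mem_piFinset] at hv
        rw [Fintype.mem_piFinset]
        intro i
        exact hv.1 i.succ)
      rw [Fintype.card_piFinset] at h1
      rw [hP]
      exact_mod_cast h1
    have hgood : ∀ n ∈ W 0, n ∉ B0 → ((Bd.filter (fun v => v 0 = n)).card : ℝ) ≤ k * δ * P := by
      intro n hn hnB
      have hn1 : ρ * S.card ≤ ((S.filter (fun a => R 0 n a)).card : ℝ) := by
        by_contra hcon
        push Not at hcon
        exact hnB (by rw [hB0]; exact mem_filter.2 ⟨hn, hcon⟩)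
      obtain ⟨S1, hS1⟩ : ∃ S1, S1 = S.filter (fun a => R 0 n a) := ⟨_, rfl⟩
      rw [← hS1] at hn1
      have hsub : S1 ⊆ S := by rw [hS1]; exact filter_subset _ _
      have hih := ih (fun i => W i.succ) (fun i => R i.succ) S1 (fun i T hT htT => hstep i.succ T (hT.trans hsub) htT) (by
        calc t ≤ ρ ^ (k + 1) * S.card := ht
          _ = ρ ^ k * (ρ * S.card) := by ring
          _ ≤ ρ ^ k * S1.card := mul_le_mul_of_nonneg_left hn1 (by positivity))
      have h1 := htail n ((Fintype.piFinset fun i : Fin k => W i.succ).filter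
        (fun v => ((S1.filter (fun a => ∀ i, R (Fin.succ i) (v i) a)).card : ℝ) < ρ ^ k * S1.card)) (by
        intro v hv hv0
        rw [hBd, mem_filter, Fintype.mem_piFinset] at hv
        rw [mem_filter, Fintype.mem_piFinset]
        refine ⟨fun i => hv.1 i.succ, ?_⟩
        have h2 : S1.filter (fun a => ∀ i, R (Fin.succ i) (Fin.tail v i) a) = S.filter (fun a => ∀ i, R i (v i) a) := by
          rw [hS1, filter_filter]
          apply filter_congr
          intro a _
          rw [Fin.forall_fin_succ, hv0]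
          rfl
        rw [h2]
        calc _ < ρ ^ (k + 1) * S.card := hv.2
          _ = ρ ^ k * (ρ * S.card) := by ring
          _ ≤ ρ ^ k * S1.card := mul_le_mul_of_nonneg_left hn1 (by positivity))
      rw [hP]
      refine le_trans ?_ hih
      exact_mod_cast h1
    rw [hcard, hprod]
    have hsplit := sum_filter_add_sum_filter_not (W 0) (fun n => n ∈ B0)
      (fun n => ((Bd.filter (fun v => v 0 = n)).card : ℝ))
    rw [← hsplit]
    have e1 : (W 0).filter (fun n => n ∈ B0) = B0 := by
      ext n
      rw [mem_filter, hB0, mem_filter]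
      tauto
    rw [e1]
    have h1 : ∑ n ∈ B0, ((Bd.filter (fun v => v 0 = n)).card : ℝ) ≤ δ * (W 0).card * P := by
      calc _ ≤ ∑ _n ∈ B0, P := sum_le_sum hbad
        _ = B0.card * P := by rw [sum_const, nsmul_eq_mul]
        _ ≤ _ := mul_le_mul_of_nonneg_right hB0c hP0
    have h2 : ∑ n ∈ (W 0).filter (fun n => n ∉ B0), ((Bd.filter (fun v => v 0 = n)).card : ℝ) ≤
        (W 0).card * (k * δ * P) := by
      calc _ ≤ ∑ _n ∈ (W 0).filter (fun n => n ∉ B0), k * δ * P := sum_le_sum fun n hn => by
            rw [mem_filter] at hn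
            exact hgood n hn.1 hn.2
        _ = ((W 0).filter (fun n => n ∉ B0)).card * (k * δ * P) := by rw [sum_const, nsmul_eq_mul]
        _ ≤ _ := mul_le_mul_of_nonneg_right (by exact_mod_cast card_le_card (filter_subset _ _)) (by positivity)
    push_cast
    linarith

end Pool.Agent.V5helper54.CS
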