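import Pool.Agent.H373R2.T7.LamMaj
import Pool.Agent.H373R2.T7.LamZ

/-! # Primes `p` for which the first terms of the Cunningham chain have no small prime factors -/

set_option autoImplicit false

namespace Pool.Agent.V5helper54.CS

open Finset
open Pool.Agent.H373R2.T7

/-- the Chinese remainder theorem: counting over a full period -/
lemma crt_count (A : Finset ℕ) (hA : ∀ p ∈ A, p.Prime) (T : ∀ p : ℕ, Finset (ZMod p)) :
    ((range (∏ p ∈ A, p)).filter fun u => ∀ p ∈ A, (u : ZMod p) ∈ T p).card = ∏ p ∈ A, (T p).card := by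
  classical
  have hne : ∀ i : A, NeZero (i : ℕ) := fun i => ⟨(hA i i.2).ne_zero⟩
  have hM : (∏ i : A, (i : ℕ)) = ∏ p ∈ A, p := Finset.prod_coe_sort A (fun p => p)
  have hMpos : 0 < ∏ p ∈ A, p := Finset.prod_pos fun p hp => (hA p hp).pos
  have hcop : Pairwise (Function.onFun Nat.Coprime (fun i : A => (i : ℕ))) := by
    intro i j hij
    exact (Nat.coprime_primes (hA i i.2) (hA j j.2)).mpr fun h => hij (Subtype.ext h)
  let e := ZMod.prodEquivPi (fun i : A => (i : ℕ)) hcop
  have : NeZero (∏ i : A, (i : ℕ)) := ⟨by rw [hM]; exact hMpos.ne'⟩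
  have h1 : ((range (∏ p ∈ A, p)).filter fun u => ∀ p ∈ A, (u : ZMod p) ∈ T p).card =
      ((univ : Finset (ZMod (∏ i : A, (i : ℕ)))).filter fun z => ∀ i : A, e z i ∈ T i).card := by
    refine card_bij (fun u _ => (u : ZMod (∏ i : A, (i : ℕ)))) ?_ ?_ ?_
    · intro u hu
      rw [mem_filter] at hu ⊢
      refine ⟨mem_univ _, fun i => ?_⟩
      rw [map_natCast e u, Pi.natCast_apply]
      exact hu.2 i i.2
    · intro u hu v hv huv
      rw [mem_filter, mem_range] at hu hv
      have h := (ZMod.natCast_eq_natCast_iff _ _ _).mp huv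
      rw [hM] at h
      exact Nat.ModEq.eq_of_lt_of_lt h hu.1 hv.1
    · intro z hz
      rw [mem_filter] at hz
      refine ⟨z.val, ?_, ZMod.natCast_zmod_val z⟩
      rw [mem_filter, mem_range]
      refine ⟨by rw [← hM]; exact ZMod.val_lt z, fun p hp => ?_⟩
      have h2 := hz.2 ⟨p, hp⟩
      rw [← ZMod.natCast_zmod_val z, map_natCast e, Pi.natCast_apply] at h2
      exact h2
  rw [h1]
  have h2 : ((univ : Finset (ZMod (∏ i : A, (i : ℕ)))).filter fun z => ∀ i : A, e z i ∈ T i).card =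
      (Fintype.piFinset fun i : A => T i).card := by
    refine card_equiv e.toEquiv ?_
    intro z
    rw [mem_filter, Fintype.mem_piFinset]
    simp only [mem_univ, true_and]
    rfl
  rw [h2, Fintype.card_piFinset]
  exact Finset.prod_coe_sort A (fun p => (T p).card)

/-- the totient of a product of distinct primes -/
lemma totient_prod (A : Finset ℕ) (hA : ∀ p ∈ A, p.Prime) : Nat.totient (∏ p ∈ A, p) = ∏ p ∈ A, (p - 1) := by
  classical
  induction A using Finset.induction_on with
  | empty => simp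
  | insert a s ha ih =>
    rw [prod_insert ha, prod_insert ha, Nat.totient_mul, ih fun p hp => hA p (mem_insert_of_mem hp),
      Nat.totient_prime (hA a (mem_insert_self _ _))]
    apply Nat.Coprime.prod_right
    intro p hp
    rw [Nat.coprime_primes (hA a (mem_insert_self _ _)) (hA p (mem_insert_of_mem hp))]
    rintro rfl
    exact ha hp

open Classical in
/-- the residue classes `c` with `2 ^ i (c + 1) ≠ 1` for all `i ≤ k` -/
noncomputable def Tc (k q : ℕ) : Finset (ZMod q) :=
  if h : q = 0 then ∅ else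
    haveI : NeZero q := ⟨h⟩
    (univ : Finset (ZMod q)).filter fun c => ∀ i ∈ range (k + 1), (2 : ZMod q) ^ i * (c + 1) ≠ 1

lemma mem_Tc (k q : ℕ) (hq : q.Prime) (c : ZMod q) :
    c ∈ Tc k q ↔ ∀ i ∈ range (k + 1), (2 : ZMod q) ^ i * (c + 1) ≠ 1 := by
  have h0 : q ≠ 0 := hq.ne_zero
  have : NeZero q := ⟨h0⟩
  unfold Tc
  rw [dif_neg h0]
  simp only [mem_filter, mem_univ, true_and]

lemma Tc_card (k q : ℕ) (hq : q.Prime) : 1 ≤ (Tc k q).card ∧ q ≤ (Tc k q).card + (k + 1) := by
  classical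
  have h0 : q ≠ 0 := hq.ne_zero
  have : NeZero q := ⟨h0⟩
  have : Fact q.Prime := ⟨hq⟩
  constructor
  · rw [Nat.one_le_iff_ne_zero, Ne, card_eq_zero, ← Ne, ← nonempty_iff_ne_empty]
    refine ⟨-1, ?_⟩
    rw [mem_Tc k q hq]
    intro i _
    rw [neg_add_cancel, mul_zero]
    exact zero_ne_one
  · have h1 := card_add_card_compl (Tc k q)
    rw [ZMod.card] at h1
    have h2 : (Tc k q)ᶜ.card ≤ ((range (k + 1)).image (fun i => ((2 : ZMod q) ^ i)⁻¹ - 1)).card := by
      apply card_le_card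
      intro c hc
      rw [mem_compl, mem_Tc k q hq] at hc
      push Not at hc
      obtain ⟨i, hi, hci⟩ := hc
      rw [mem_image]
      refine ⟨i, hi, ?_⟩
      have h4 : c + 1 = ((2 : ZMod q) ^ i)⁻¹ := eq_inv_of_mul_eq_one_right hci
      rw [← h4]
      ring
    have h3 := card_image_le (s := range (k + 1)) (f := fun i => ((2 : ZMod q) ^ i)⁻¹ - 1)
    rw [card_range] at h3
    omega

/-- the proportion of the classes -/
lemma Tc_ratio (k q : ℕ) (hq : q.Prime) :
    ((q : ℝ) - 1) * Real.exp (-(((2 * k + 2) ^ 2 : ℕ) : ℝ) * (1 / ((q : ℝ) - 1))) ≤ (Tc k q).card := by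
  obtain ⟨h1, h2⟩ := Tc_card k q hq
  have hq2 : (2 : ℝ) ≤ q := by exact_mod_cast hq.two_le
  obtain ⟨t, ht⟩ : ∃ t : ℝ, t = (q : ℝ) - 1 := ⟨_, rfl⟩
  rw [← ht]
  have ht1 : 1 ≤ t := by linarith
  have ht0 : 0 < t := by linarith
  have hk0 : (0 : ℝ) ≤ k := Nat.cast_nonneg k
  obtain ⟨C, hC⟩ : ∃ C : ℝ, C = (((2 * k + 2) ^ 2 : ℕ) : ℝ) := ⟨_, rfl⟩
  rw [← hC]
  have hC' : C = (2 * k + 2) ^ 2 := by rw [hC]; push_cast; ring
  have e1 : -C * (1 / t) = -(C / t) := by ring
  rw [e1]
  rcases le_or_gt t (2 * k + 2) with h | h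
  · have h3 : t * Real.exp (-(C / t)) ≤ 1 := by
      have h4 : t ≤ C / t := by
        rw [le_div_iff₀ ht0, hC']
        nlinarith
      have h5 : t + 1 ≤ Real.exp t := Real.add_one_le_exp t
      have h6 : Real.exp (-(C / t)) ≤ Real.exp (-t) := Real.exp_le_exp.2 (by linarith)
      calc t * Real.exp (-(C / t)) ≤ t * Real.exp (-t) := mul_le_mul_of_nonneg_left h6 ht0.le
        _ ≤ Real.exp t * Real.exp (-t) := mul_le_mul_of_nonneg_right (by linarith) (Real.exp_pos _).le
        _ = 1 := by rw [← Real.exp_add]; simp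
    exact h3.trans (by exact_mod_cast h1)
  · have h3 : t - k ≤ (Tc k q).card := by
      have : (q : ℝ) ≤ (Tc k q).card + (k + 1) := by exact_mod_cast h2
      linarith
    refine le_trans ?_ h3
    obtain ⟨s, hs⟩ : ∃ s : ℝ, s = k / t := ⟨_, rfl⟩
    have hs0 : 0 ≤ s := by rw [hs]; positivity
    have hs1 : s ≤ 1 / 2 := by
      rw [hs, div_le_iff₀ ht0]
      linarith
    have h4 : Real.exp (-(C / t)) ≤ 1 - s := by
      have h5 : 2 * s ≤ C / t := by
        rw [hs, ← mul_div_assoc]
        apply div_le_div_of_nonneg_right _ ht0.le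
        rw [hC']
        nlinarith
      have h6 : Real.exp (-(C / t)) ≤ Real.exp (-(2 * s)) := Real.exp_le_exp.2 (by linarith)
      have h7 : 1 + 2 * s ≤ Real.exp (2 * s) := by
        have := Real.add_one_le_exp (2 * s)
        linarith
      have h8 : Real.exp (-(2 * s)) ≤ 1 / (1 + 2 * s) := by
        rw [Real.exp_neg, ← one_div]
        exact one_div_le_one_div_of_le (by linarith) h7
      have h9 : 1 / (1 + 2 * s) ≤ 1 - s := by
        rw [div_le_iff₀ (by linarith)]
        nlinarith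
      linarith
    calc t * Real.exp (-(C / t)) ≤ t * (1 - s) := mul_le_mul_of_nonneg_left h4 ht0.le
      _ = t - k := by
          rw [hs]
          field_simp

end Pool.Agent.V5helper54.CS
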