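import Pool.Agent.V5helper54.CS.Cls
import Pool.Agent.Y877.SxE

/-! # There are many primes `p` for which the first terms of the Cunningham chain have no small prime factors -/

set_option autoImplicit false

namespace Pool.Agent.V5helper54.CS

open Finset
open Pool.Agent.H373R2.T7
open Pool.Agent.Y877.SX

open Classical in
/-- the primes `p ≤ x` for which none of the numbers `2 ^ i (p + 1) - 1`, `i ≤ k`, has a prime factor `≤ y` -/
noncomputable def Good (k y x : ℕ) : Finset ℕ :=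
  (Icc 1 x).filter fun p => p.Prime ∧ ∀ i ≤ k, ∀ q : ℕ, q.Prime → q ≤ y → ¬ q ∣ 2 ^ i * (p + 1) - 1

lemma sum_inv_pred (y : ℕ) : ∑ q ∈ (range (y + 1)).filter Nat.Prime, 1 / ((q : ℝ) - 1) ≤ 1 + Real.log (y + 1) := by
  have h1 : ∑ q ∈ (range (y + 1)).filter Nat.Prime, 1 / ((q : ℝ) - 1) ≤ ∑ n ∈ Icc 1 (y + 1), 1 / (n : ℝ) := by
    have e1 : ∑ q ∈ (range (y + 1)).filter Nat.Prime, 1 / ((q : ℝ) - 1) =
        ∑ n ∈ ((range (y + 1)).filter Nat.Prime).image (fun q : ℕ => (q - 1 : ℕ)), 1 / ((n : ℕ) : ℝ) := by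
      rw [sum_image]
      · apply sum_congr rfl
        intro q hq
        rw [mem_filter] at hq
        rw [Nat.cast_sub hq.2.one_le, Nat.cast_one]
      · intro a ha b hb hab
        rw [mem_coe, mem_filter] at ha hb
        have := ha.2.one_le
        have := hb.2.one_le
        simp only at hab
        omega
    rw [e1]
    apply sum_le_sum_of_subset_of_nonneg
    · intro n hn
      rw [mem_image] at hn
      obtain ⟨q, hq, rfl⟩ := hn
      rw [mem_filter, mem_range] at hq
      have := hq.2.two_le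
      rw [mem_Icc]
      omega
    · intro n _ _
      positivity
  have h2 : ∑ n ∈ Icc 1 (y + 1), 1 / (n : ℝ) = ((harmonic (y + 1) : ℚ) : ℝ) := by
    rw [harmonic_eq_sum_Icc]
    push_cast
    simp
  rw [h2] at h1
  have h3 := harmonic_le_one_add_log (y + 1)
  push_cast at h3
  exact h1.trans h3

open Classical in
theorem many_good (k K1 : ℕ) : ∃ x0 : ℕ, ∀ x : ℕ, x0 ≤ x → ∀ y : ℕ, (y : ℝ) ≤ K1 * Real.log (Real.log x) →
    (x : ℝ) ≤ (Good k y x).card * Real.log x ^ 2 := by
  obtain ⟨N0, hN0⟩ := lam_ap (2 * K1) (2 * K1 + 2)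
  obtain ⟨C, hC⟩ : ∃ C : ℝ, C = (((2 * k + 2) ^ 2 : ℕ) : ℝ) := ⟨_, rfl⟩
  have hC0 : 0 ≤ C := by rw [hC]; exact Nat.cast_nonneg _
  obtain ⟨x1, hx1⟩ := ev_L' (Real.exp ((5 * C + 2) ^ 2 + K1 + 4))
  obtain ⟨x2, hx2⟩ := ev_log' 2 2
  refine ⟨max N0 (max x1 (max x2 1)), fun x hx y hy => ?_⟩
  have b1 : N0 ≤ x := le_trans (le_max_left _ _) hx
  have b2 : x1 ≤ x := le_trans (le_trans (le_max_left _ _) (le_max_right _ _)) hx
  have b3 : x2 ≤ x := le_trans (le_trans (le_trans (le_max_left _ _) (le_max_right _ _)) (le_max_right _ _)) hx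
  have b4 : 1 ≤ x := le_trans (le_trans (le_trans (le_max_right _ _) (le_max_right _ _)) (le_max_right _ _)) hx
  have hL := hx1 x b2
  have hsq := hx2 x b3
  have hap := hN0 x b1
  have hxr : (1 : ℝ) ≤ x := by exact_mod_cast b4
  have hx0 : (0 : ℝ) < x := by linarith
  obtain ⟨L, hLd⟩ : ∃ L, L = Real.log (x : ℝ) := ⟨_, rfl⟩
  rw [← hLd] at hL hsq hap hy ⊢
  have hL0 : 0 < L := (Real.exp_pos _).trans_le hL
  obtain ⟨l, hl⟩ : ∃ l, l = Real.log L := ⟨_, rfl⟩
  have hl1 : (5 * C + 2) ^ 2 + K1 + 4 ≤ l := by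
    rw [hl, ← Real.log_exp ((5 * C + 2) ^ 2 + K1 + 4)]
    exact Real.log_le_log (Real.exp_pos _) hL
  have hK10 : (0 : ℝ) ≤ K1 := Nat.cast_nonneg _
  have hl4 : 4 ≤ l := by nlinarith
  have hlK : (K1 : ℝ) + 4 ≤ l := by nlinarith
  have hlL : l ≤ L := by
    rw [hl]
    exact (Real.log_le_sub_one_of_pos hL0).trans (by linarith)
  have hL4 : 4 ≤ L := hl4.trans hlL
  have hL1 : 1 ≤ L := by linarith
  have hLe : Real.exp 1 ≤ L := by
    rw [← Real.exp_log hL0, ← hl]
    exact Real.exp_le_exp.2 (by linarith)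
  rw [← hl] at hy
  -- the modulus
  obtain ⟨A, hA⟩ : ∃ A : Finset ℕ, A = (range (y + 1)).filter Nat.Prime := ⟨_, rfl⟩
  have hAp : ∀ p ∈ A, p.Prime := by
    intro p hp
    rw [hA, mem_filter] at hp
    exact hp.2
  obtain ⟨M, hMd⟩ : ∃ M : ℕ, M = ∏ p ∈ A, p := ⟨_, rfl⟩
  have hMprim : M = primorial y := by rw [hMd, hA]; rfl
  have hM1 : 1 ≤ M := by rw [hMprim]; exact primorial_pos y
  have hML : (M : ℝ) ≤ L ^ (2 * K1) := by
    rw [hMprim]
    exact primorial_le_log K1 y L hLe (by rw [← hl]; exact hy)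
  obtain ⟨R, hR⟩ : ∃ R : Finset ℕ, R = (range M).filter (fun c => ∀ p ∈ A, (c : ZMod p) ∈ Tc k p) := ⟨_, rfl⟩
  have hRM : (R.card : ℝ) ≤ M := by
    rw [hR]
    have := card_le_card (filter_subset (fun c : ℕ => ∀ p ∈ A, (c : ZMod p) ∈ Tc k p) (range M))
    rw [card_range] at this
    exact_mod_cast this
  have hRcard : R.card = ∏ p ∈ A, (Tc k p).card := by
    rw [hR, hMd]
    exact crt_count A hAp (fun p => Tc k p)
  have hphi : ((Nat.totient M : ℕ) : ℝ) = ∏ p ∈ A, ((p : ℝ) - 1) := by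
    rw [hMd, totient_prod A hAp]
    push_cast
    apply prod_congr rfl
    intro p hp
    rw [Nat.cast_sub (hAp p hp).one_le, Nat.cast_one]
  have hphi0 : (0 : ℝ) < ((Nat.totient M : ℕ) : ℝ) := by
    exact_mod_cast Nat.totient_pos.2 (by omega)
  obtain ⟨ξ, hξ⟩ : ∃ ξ : ℝ, ξ = Real.exp (-C * ∑ q ∈ A, 1 / ((q : ℝ) - 1)) := ⟨_, rfl⟩
  have hRlow : ((Nat.totient M : ℕ) : ℝ) * ξ ≤ R.card := by
    rw [hRcard, hphi, hξ, mul_sum, Real.exp_sum, ← prod_mul_distrib]
    push_cast
    apply prod_le_prod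
    · intro p hp
      have : (2 : ℝ) ≤ p := by exact_mod_cast (hAp p hp).two_le
      have := Real.exp_pos (-C * (1 / ((p : ℝ) - 1)))
      apply mul_nonneg (by linarith) this.le
    · intro p hp
      rw [hC]
      exact Tc_ratio k p (hAp p hp)
  have hξL : 3 / L ≤ ξ := by
    have h1 := sum_inv_pred y
    rw [← hA] at h1
    have h2 : Real.log ((y : ℝ) + 1) ≤ 2 * Real.log l := by
      have h3 : (y : ℝ) + 1 ≤ l ^ 2 := by nlinarith
      have h4 := Real.log_le_log (by positivity) h3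
      rwa [Real.log_pow] at h4
    have hsl : √l * √l = l := Real.mul_self_sqrt (by linarith)
    have hl0 : 0 < l := by linarith
    have h5 : Real.log l ≤ 2 * √l := by
      have h6 : Real.log l = 2 * Real.log (√l) := by
        rw [Real.log_sqrt hl0.le]
        ring
      have h7 : Real.log (√l) ≤ √l := (Real.log_le_sub_one_of_pos (Real.sqrt_pos.2 hl0)).trans (by linarith)
      rw [h6]
      linarith
    have h6 : 5 * C + 2 ≤ √l := by
      apply Real.le_sqrt_of_sq_le
      nlinarith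
    have h7 : C * (1 + 4 * √l) + 2 ≤ l := by
      have h8 : (5 * C + 2) * √l ≤ √l * √l := mul_le_mul_of_nonneg_right h6 (Real.sqrt_nonneg _)
      have h9 : 1 ≤ √l := by linarith
      nlinarith
    have h8 : C * ∑ q ∈ A, 1 / ((q : ℝ) - 1) ≤ l - 2 := by
      have : C * ∑ q ∈ A, 1 / ((q : ℝ) - 1) ≤ C * (1 + 4 * √l) := mul_le_mul_of_nonneg_left (by linarith) hC0
      linarith
    have h9 : Real.log 3 ≤ 2 := by
      have := Real.log_le_sub_one_of_pos (show (0 : ℝ) < 3 by norm_num)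
      linarith
    rw [hξ, ← Real.exp_log (show (0 : ℝ) < 3 / L by positivity)]
    apply Real.exp_le_exp.2
    rw [Real.log_div (by norm_num) hL0.ne', ← hl]
    linarith
  -- the sum over the good classes
  have hsumR : ∀ c ∈ R, (x : ℝ) / (Nat.totient M : ℝ) - x / L ^ (2 * K1 + 2) ≤
      ∑ n ∈ (Icc 1 x).filter (fun n => n ≡ c [MOD M]), ArithmeticFunction.vonMangoldt n := by
    intro c hc
    rw [hR, mem_filter] at hc
    have hcop : c.Coprime M := by
      rw [hMd]
      apply Nat.Coprime.prod_right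
      intro p hp
      rw [Nat.coprime_comm, (hAp p hp).coprime_iff_not_dvd]
      intro hd
      have h1 := hc.2 p hp
      rw [mem_Tc k p (hAp p hp)] at h1
      have h2 := h1 0 (mem_range.2 (by omega))
      apply h2
      rw [pow_zero, one_mul, (ZMod.natCast_eq_zero_iff c p).2 hd, zero_add]
    have h1 := hap M hM1 hML c x le_rfl
    rw [if_pos hcop] at h1
    have := (abs_le.1 h1).1
    linarith
  have htot : 2 * x / L ≤ ∑ n ∈ (Icc 1 x).filter (fun n => n % M ∈ R), ArithmeticFunction.vonMangoldt n := by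
    have h1 : ∑ n ∈ (Icc 1 x).filter (fun n => n % M ∈ R), ArithmeticFunction.vonMangoldt n =
        ∑ c ∈ R, ∑ n ∈ (Icc 1 x).filter (fun n => n ≡ c [MOD M]), ArithmeticFunction.vonMangoldt n := by
      have h2 := sum_fiberwise_of_maps_to (s := (Icc 1 x).filter (fun n => n % M ∈ R)) (t := R) (g := fun n => n % M)
        (fun n hn => (mem_filter.1 hn).2) (fun n => ArithmeticFunction.vonMangoldt n)
      rw [← h2]
      apply sum_congr rfl
      intro c hc
      apply sum_congr _ fun _ _ => rfl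
      ext n
      rw [mem_filter, mem_filter, mem_filter]
      have hcM : c < M := by
        rw [hR, mem_filter, mem_range] at hc
        exact hc.1
      constructor
      · rintro ⟨⟨h3, -⟩, h4⟩
        refine ⟨h3, ?_⟩
        unfold Nat.ModEq
        rw [h4, Nat.mod_eq_of_lt hcM]
      · rintro ⟨h3, h4⟩
        unfold Nat.ModEq at h4
        rw [Nat.mod_eq_of_lt hcM] at h4
        exact ⟨⟨h3, by rw [h4]; exact hc⟩, h4⟩
    rw [h1]
    have h2 : (R.card : ℝ) * ((x : ℝ) / (Nat.totient M : ℝ) - x / L ^ (2 * K1 + 2)) ≤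
        ∑ c ∈ R, ∑ n ∈ (Icc 1 x).filter (fun n => n ≡ c [MOD M]), ArithmeticFunction.vonMangoldt n := by
      rw [← nsmul_eq_mul, ← sum_const]
      exact sum_le_sum hsumR
    refine le_trans ?_ h2
    have h3 : ξ * x ≤ (R.card : ℝ) * ((x : ℝ) / (Nat.totient M : ℝ)) := by
      calc ξ * x = (((Nat.totient M : ℕ) : ℝ) * ξ) * (x / (Nat.totient M : ℝ)) := by field_simp
        _ ≤ _ := mul_le_mul_of_nonneg_right hRlow (by positivity)
    have h4 : (R.card : ℝ) * (x / L ^ (2 * K1 + 2)) ≤ x / L ^ 2 := by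
      calc (R.card : ℝ) * (x / L ^ (2 * K1 + 2)) ≤ L ^ (2 * K1) * (x / L ^ (2 * K1 + 2)) :=
            mul_le_mul_of_nonneg_right (hRM.trans hML) (by positivity)
        _ = x / L ^ 2 := by
            rw [pow_add]
            field_simp
    have h5 : 3 / L * x ≤ ξ * x := mul_le_mul_of_nonneg_right hξL hx0.le
    have h6 : x / L ^ 2 ≤ x / L := by
      apply div_le_div_of_nonneg_left hx0.le hL0
      nlinarith
    have h7 : 3 / L * x = 2 * x / L + x / L := by ring
    rw [mul_sub]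
    linarith
  -- from `Λ` to primes
  obtain ⟨Q, hQ⟩ : ∃ Q : Finset ℕ, Q = (Icc 1 x).filter (fun n => n % M ∈ R) := ⟨_, rfl⟩
  rw [← hQ] at htot
  have hnp : ∑ n ∈ Q.filter (fun n => ¬ n.Prime), ArithmeticFunction.vonMangoldt n ≤ 2 * √(x : ℝ) * L := by
    have h3 := Chebyshev.psi_sub_theta_le (x := (x : ℝ)) hxr
    rw [Chebyshev.psi_sub_theta_eq_sum_not_prime, Nat.floor_natCast, ← hLd] at h3
    refine le_trans ?_ h3
    apply sum_le_sum_of_subset_of_nonneg
    · intro n hn
      rw [mem_filter, hQ, mem_filter, mem_Icc] at hn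
      rw [mem_filter, mem_Ioc]
      exact ⟨by omega, hn.2⟩
    · intro n _ _
      exact ArithmeticFunction.vonMangoldt_nonneg
  have hpr : ∑ n ∈ Q.filter (fun n => n.Prime), ArithmeticFunction.vonMangoldt n ≤ (Good k y x).card * L := by
    have h1 : Q.filter (fun n => n.Prime) ⊆ Good k y x := by
      intro n hn
      rw [mem_filter, hQ, mem_filter] at hn
      obtain ⟨⟨hn1, hn2⟩, hn3⟩ := hn
      unfold Good
      rw [mem_filter]
      refine ⟨hn1, hn3, fun i hi q hq hqy hd => ?_⟩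
      have hqA : q ∈ A := by
        rw [hA, mem_filter, mem_range]
        exact ⟨by omega, hq⟩
      rw [hR, mem_filter] at hn2
      have h2 := hn2.2 q hqA
      have hqM : q ∣ M := by rw [hMd]; exact dvd_prod_of_mem _ hqA
      have h3 : ((n % M : ℕ) : ZMod q) = (n : ZMod q) := by
        rw [ZMod.natCast_eq_natCast_iff]
        exact (Nat.mod_modEq n M).of_dvd hqM
      rw [h3, mem_Tc k q hq] at h2
      apply h2 i (mem_range.2 (by omega))
      have h4 := (ZMod.natCast_eq_zero_iff (2 ^ i * (n + 1) - 1) q).2 hd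
      have h5 : 1 ≤ 2 ^ i * (n + 1) := Nat.mul_pos (by positivity) (by omega)
      rw [Nat.cast_sub h5] at h4
      push_cast at h4
      exact sub_eq_zero.1 h4
    calc ∑ n ∈ Q.filter (fun n => n.Prime), ArithmeticFunction.vonMangoldt n ≤
          ∑ _n ∈ Q.filter (fun n => n.Prime), L := by
            apply sum_le_sum
            intro n hn
            rw [mem_filter, hQ, mem_filter, mem_Icc] at hn
            rw [ArithmeticFunction.vonMangoldt_apply_prime hn.2, hLd]
            exact Real.log_le_log (by exact_mod_cast hn.2.pos) (by exact_mod_cast hn.1.1.2)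
      _ = (Q.filter (fun n => n.Prime)).card * L := by rw [sum_const, nsmul_eq_mul]
      _ ≤ _ := mul_le_mul_of_nonneg_right (by exact_mod_cast card_le_card h1) hL0.le
  have hspl := sum_filter_add_sum_filter_not Q (fun n => n.Prime) (fun n => ArithmeticFunction.vonMangoldt n)
  have hs0 : 0 < √(x : ℝ) := Real.sqrt_pos.2 hx0
  have hss : √(x : ℝ) * √(x : ℝ) = x := Real.mul_self_sqrt hx0.le
  have hlast : 2 * √(x : ℝ) * L ≤ x / L := by
    rw [le_div_iff₀ hL0]
    calc 2 * √(x : ℝ) * L * L = (2 * L ^ 2) * √(x : ℝ) := by ring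
      _ ≤ √(x : ℝ) * √(x : ℝ) := mul_le_mul_of_nonneg_right hsq hs0.le
      _ = x := hss
  have h1 : x / L ≤ (Good k y x).card * L := by
    have : 2 * (x : ℝ) / L = x / L + x / L := by ring
    linarith
  rw [div_le_iff₀ hL0] at h1
  calc (x : ℝ) ≤ (Good k y x).card * L * L := h1
    _ = _ := by ring

end Pool.Agent.V5helper54.CS
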