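import Pool.Agent.V5helper54.CS.InjM
import Pool.Agent.Helper507.PNT

/-! # Goldbach representations of several numbers with linked summands -/

set_option autoImplicit false

namespace Pool.Agent.V5helper54.CS

open Finset
open Pool.Agent.H373R2.T7
open Pool.Agent.Y877.SX
open Pool.Agent.V5helper51.SG

/-- `N = p + (N - p)` is a sum of two distinct odd primes -/
def Two (N p : ℕ) : Prop := p.Prime ∧ (N - p).Prime ∧ p ≠ 2 ∧ N - p ≠ 2 ∧ p ≠ N - p

/-- few elements are excluded by finitely many values of injective functions -/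
lemma few_values {α : Type*} [DecidableEq α] (k r : ℕ) (S : Finset α) (f : Fin k → α → ℕ) (hf : ∀ i, Set.InjOn (f i) S)
    (V : Fin k → Finset ℕ) (hV : ∀ i, (V i).card ≤ r) [DecidablePred fun s => ∃ i, f i s ∈ V i] :
    (S.filter (fun s => ∃ i, f i s ∈ V i)).card ≤ k * r := by
  classical
  calc (S.filter (fun s => ∃ i, f i s ∈ V i)).card ≤ (univ.biUnion (fun i : Fin k => S.filter (fun s => f i s ∈ V i))).card := by
        apply card_le_card
        intro s hs
        rw [mem_filter] at hs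
        obtain ⟨hs1, i, hi⟩ := hs
        rw [mem_biUnion]
        exact ⟨i, mem_univ _, mem_filter.2 ⟨hs1, hi⟩⟩
    _ ≤ ∑ i : Fin k, (S.filter (fun s => f i s ∈ V i)).card := card_biUnion_le
    _ ≤ ∑ _i : Fin k, r := by
        apply sum_le_sum
        intro i _
        refine le_trans ?_ (hV i)
        apply card_le_card_of_injOn (f i)
        · intro s hs
          exact (mem_filter.1 hs).2
        · exact (hf i).mono (by
            intro a ha
            exact (mem_filter.1 ha).1)
    _ = k * r := by rw [sum_const, card_univ, Fintype.card_fin, smul_eq_mul]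

open Classical in
/-- arbitrary dense sets and arbitrary injections into the primes -/
theorem gold_main (k A B : ℕ) (ε : ℝ) (hε : 0 < ε) (hε1 : ε ≤ 1) : ∃ K0 : ℕ, ∀ K1 : ℕ, ∃ D x0 : ℕ,
    ∀ x : ℕ, x0 ≤ x → ∀ y : ℕ, K0 * Real.log (Real.log x) ≤ y → y ≤ K1 * Real.log (Real.log x) →
    ∀ (X w G : Fin k → ℕ), (∀ i, x ≤ X i ∧ (X i : ℝ) ≤ x * Real.log x ^ B) →
    (∀ i, X i ≤ primorial y * w i ∧ primorial y * (w i + G i) ≤ 2 * X i ∧
      (X i : ℝ) ^ (1 / 3 : ℝ) * Real.log x ^ D ≤ primorial y * G i) →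
    ∀ (S : Finset ℕ) (σ : Fin k → ℕ → ℕ), (∀ i, Set.InjOn (σ i) S) → (∀ i, ∀ s ∈ S, (σ i s).Prime ∧ σ i s ≤ x) →
    (x : ℝ) ≤ S.card * Real.log x ^ A →
    (((Fintype.piFinset fun i => Ioc (w i) (w i + G i)).filter (fun n =>
      ((S.filter (fun s => ∀ i, Two (primorial y * n i) (σ i s))).card : ℝ) <
      (1 - ε) * (S.card / (Vz y * Real.log x) ^ k))).card : ℝ) ≤ ε * ∏ i, (G i : ℝ) := by
  obtain ⟨K0, hK0⟩ := inj_minus (α := ℕ) k (A + 1) B (ε / 4) (by positivity) (by linarith)
  refine ⟨K0, fun K1 => ?_⟩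
  obtain ⟨D, x0, hx0⟩ := hK0 K1
  obtain ⟨x1, hx1⟩ := one_le_VL K1
  obtain ⟨x4, hx4⟩ := ev_log' (A + 1) (4 * k * K1 / ε)
  obtain ⟨x5, hx5⟩ := ev_log' (A + k) (12 * k / ε)
  refine ⟨D, max x0 (max x1 (max x4 (max x5 1))), fun x hx y hy1 hy2 X w G hX hwG S σ hσ hσp hSc => ?_⟩
  have b0 : x0 ≤ x := le_trans (le_max_left _ _) hx
  have hx' := le_trans (le_max_right _ _) hx
  have b1 : x1 ≤ x := le_trans (le_max_left _ _) hx'
  have hx' := le_trans (le_max_right _ _) hx'
  have b4 : x4 ≤ x := le_trans (le_max_left _ _) hx'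
  have hx' := le_trans (le_max_right _ _) hx'
  have b5 : x5 ≤ x := le_trans (le_max_left _ _) hx'
  have b6 : 1 ≤ x := le_trans (le_max_right _ _) hx'
  obtain ⟨hL2, hVL⟩ := hx1 x b1 y hy2
  have hs := hx4 x b4
  have hs5 := hx5 x b5
  have key := hx0 x b0 y hy1 hy2
  obtain ⟨L, hLd⟩ : ∃ L, L = Real.log (x : ℝ) := ⟨_, rfl⟩
  rw [← hLd] at hL2 hVL hy1 hy2 hSc hwG hX hs hs5 key ⊢
  have hL0 : 0 < L := by linarith
  have hxr : (1 : ℝ) ≤ x := by exact_mod_cast b6
  have hsqrt : √(x : ℝ) ≤ x := by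
    rw [Real.sqrt_le_left (by linarith)]
    nlinarith
  have hX' : ∀ i, (x : ℝ) ≤ X i * L ^ B ∧ (X i : ℝ) ≤ x * L ^ B := by
    intro i
    refine ⟨?_, (hX i).2⟩
    calc (x : ℝ) ≤ X i := by exact_mod_cast (hX i).1
      _ = X i * 1 := (mul_one _).symm
      _ ≤ X i * L ^ B := mul_le_mul_of_nonneg_left (one_le_pow₀ (by linarith)) (Nat.cast_nonneg _)
  -- the elements with large images
  obtain ⟨S', hS'd⟩ : ∃ S', S' = S.filter (fun s => ¬ ∃ i, σ i s ∈ Icc 1 y) := ⟨_, rfl⟩
  have hsub : S' ⊆ S := by rw [hS'd]; exact filter_subset _ _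
  have hsmall : (S.filter (fun s => ∃ i, σ i s ∈ Icc 1 y)).card ≤ k * y := by
    have h1 := few_values k y S σ hσ (fun _ => Icc 1 y) (fun _ => by rw [Nat.card_Icc, Nat.add_sub_cancel])
    convert h1
  have hsplit : (S.filter (fun s => ∃ i, σ i s ∈ Icc 1 y)).card + S'.card = S.card := by
    rw [hS'd]
    exact card_filter_add_card_filter_not _
  have hloglog : Real.log L ≤ L := (Real.log_le_sub_one_of_pos hL0).trans (by linarith)
  have hS0 : (0 : ℝ) ≤ S.card := Nat.cast_nonneg _
  have hk0 : (0 : ℝ) ≤ k := Nat.cast_nonneg _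
  have hyS : (k : ℝ) * y ≤ ε / 4 * S.card := by
    have h1 : (y : ℝ) ≤ K1 * L := hy2.trans (mul_le_mul_of_nonneg_left hloglog (Nat.cast_nonneg _))
    have h2 : (k : ℝ) * y * L ^ A ≤ ε / 4 * x := by
      calc (k : ℝ) * y * L ^ A ≤ (k * (K1 * L)) * L ^ A :=
            mul_le_mul_of_nonneg_right (mul_le_mul_of_nonneg_left h1 hk0) (by positivity)
        _ = ε / 4 * (4 * k * K1 / ε * L ^ (A + 1)) := by
            rw [pow_succ]
            field_simp
        _ ≤ ε / 4 * √x := mul_le_mul_of_nonneg_left hs (by positivity)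
        _ ≤ ε / 4 * x := mul_le_mul_of_nonneg_left hsqrt (by positivity)
    have h3 : (k : ℝ) * y * L ^ A ≤ (ε / 4 * S.card) * L ^ A := by
      calc (k : ℝ) * y * L ^ A ≤ ε / 4 * x := h2
        _ ≤ ε / 4 * (S.card * L ^ A) := mul_le_mul_of_nonneg_left hSc (by positivity)
        _ = _ := by ring
    exact le_of_mul_le_mul_right h3 (by positivity)
  have hS'c : (1 - ε / 4) * S.card ≤ S'.card := by
    have h1 : ((S.filter (fun s => ∃ i, σ i s ∈ Icc 1 y)).card : ℝ) + (S'.card : ℝ) = S.card := by exact_mod_cast hsplit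
    have h2 : ((S.filter (fun s => ∃ i, σ i s ∈ Icc 1 y)).card : ℝ) ≤ k * y := by exact_mod_cast hsmall
    linarith
  have hVy := Vz_pos y
  have hVy1 := Vz_le_one y
  have hVL0 : 0 < (Vz y * L) ^ k := by positivity
  have h3k : (3 * k : ℝ) ≤ ε / 4 * (S.card / (Vz y * L) ^ k) := by
    have h1 : (Vz y * L) ^ k ≤ L ^ k := by
      apply pow_le_pow_left₀ (by positivity)
      exact mul_le_of_le_one_left hL0.le hVy1
    rw [← mul_div_assoc, le_div_iff₀ hVL0]
    have h2 : (3 * k : ℝ) * (Vz y * L) ^ k ≤ (3 * k : ℝ) * L ^ k := mul_le_mul_of_nonneg_left h1 (by positivity)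
    refine h2.trans ?_
    have h3 : ((3 * k : ℝ) * L ^ k) * L ^ A ≤ (ε / 4 * S.card) * L ^ A := by
      calc ((3 * k : ℝ) * L ^ k) * L ^ A = ε / 4 * (12 * k / ε * L ^ (A + k)) := by
            rw [pow_add]
            field_simp
            ring
        _ ≤ ε / 4 * √x := mul_le_mul_of_nonneg_left hs5 (by positivity)
        _ ≤ ε / 4 * x := mul_le_mul_of_nonneg_left hsqrt (by positivity)
        _ ≤ ε / 4 * (S.card * L ^ A) := mul_le_mul_of_nonneg_left hSc (by positivity)
        _ = _ := by ring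
    exact le_of_mul_le_mul_right h3 (by positivity)
  have hfin := key X hX' S' σ (fun i => (hσ i).mono (by exact_mod_cast hsub)) (by
      intro i s hs
      have h1 := hσp i s (hsub hs)
      exact ⟨h1.1.pos, h1.2.trans (hX i).1⟩) (by
      calc (x : ℝ) ≤ S.card * L ^ A := hSc
        _ ≤ (2 * S'.card) * L ^ A := by
            apply mul_le_mul_of_nonneg_right _ (by positivity)
            nlinarith
        _ = S'.card * (L ^ A * 2) := by ring
        _ ≤ S'.card * (L ^ A * L) := by gcongr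
        _ = _ := by rw [pow_succ]) (by
      intro i s hs q hq hqy hd
      have h2 := (hσp i s (hsub hs)).1
      rw [hS'd, mem_filter] at hs
      have h3 := (Nat.prime_dvd_prime_iff_eq hq h2).1 hd
      apply hs.2
      refine ⟨i, ?_⟩
      rw [mem_Icc, ← h3]
      exact ⟨hq.pos, hqy⟩) w G hwG
  have hP0 : (0 : ℝ) ≤ ∏ i, (G i : ℝ) := prod_nonneg fun _ _ => Nat.cast_nonneg _
  refine le_trans ?_ (hfin.trans (mul_le_mul_of_nonneg_right (by linarith) hP0))
  have hle : ((Fintype.piFinset fun i => Ioc (w i) (w i + G i)).filter (fun n =>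
      ((S.filter (fun s => ∀ i, Two (primorial y * n i) (σ i s))).card : ℝ) <
      (1 - ε) * (S.card / (Vz y * L) ^ k))).card ≤
      ((Fintype.piFinset fun i => Ioc (w i) (w i + G i)).filter (fun n =>
      ((S'.filter (fun s => ∀ i, (primorial y * n i - σ i s).Prime)).card : ℝ) <
      (1 - ε / 4) * (S'.card / (Vz y * L) ^ k))).card := by
    apply card_le_card
    intro n hn
    rw [mem_filter] at hn ⊢
    refine ⟨hn.1, ?_⟩
    -- the excluded values
    obtain ⟨E, hE⟩ : ∃ E : Fin k → Finset ℕ, E = fun i => {2, primorial y * n i - 2, primorial y * n i / 2} := ⟨_, rfl⟩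
    have hEc : ∀ i, (E i).card ≤ 3 := by
      intro i
      rw [hE]
      exact card_le_three
    have hex : (S'.filter (fun s => ∃ i, σ i s ∈ E i)).card ≤ k * 3 := by
      have h1 := few_values k 3 S' σ (fun i => (hσ i).mono (by exact_mod_cast hsub)) E hEc
      convert h1
    have h1 : (S'.filter (fun s => ∀ i, (primorial y * n i - σ i s).Prime)).card ≤
        (S.filter (fun s => ∀ i, Two (primorial y * n i) (σ i s))).card + (S'.filter (fun s => ∃ i, σ i s ∈ E i)).card := by
      rw [← card_filter_add_card_filter_not (s := S'.filter (fun s => ∀ i, (primorial y * n i - σ i s).Prime))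
        (fun s => ∃ i, σ i s ∈ E i), add_comm]
      apply Nat.add_le_add
      · apply card_le_card
        intro s hs
        rw [mem_filter, mem_filter] at hs
        obtain ⟨⟨hs1, hs2⟩, hs3⟩ := hs
        rw [mem_filter]
        refine ⟨hsub hs1, fun i => ?_⟩
        have h4 : σ i s ∉ E i := fun h => hs3 ⟨i, h⟩
        rw [hE] at h4
        simp only [mem_insert, mem_singleton, not_or] at h4
        have h5 := hs2 i
        have h6 := h5.two_le
        exact ⟨(hσp i s (hsub hs1)).1, h5, h4.1, by omega, by omega⟩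
      · apply card_le_card
        intro s hs
        rw [mem_filter, mem_filter] at hs
        rw [mem_filter]
        exact ⟨hs.1.1, hs.2⟩
    have h2 : ((S'.filter (fun s => ∀ i, (primorial y * n i - σ i s).Prime)).card : ℝ) ≤
        ((S.filter (fun s => ∀ i, Two (primorial y * n i) (σ i s))).card : ℝ) + 3 * k := by
      have h3 : (S'.filter (fun s => ∀ i, (primorial y * n i - σ i s).Prime)).card ≤
        (S.filter (fun s => ∀ i, Two (primorial y * n i) (σ i s))).card + 3 * k := by omega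
      exact_mod_cast h3
    have h4 : ((S.filter (fun s => ∀ i, Two (primorial y * n i) (σ i s))).card : ℝ) <
      (1 - ε) * (S.card / (Vz y * L) ^ k) := hn.2
    have h5 : (1 - ε) * (S.card / (Vz y * L) ^ k) + 3 * k ≤ (1 - ε / 4) * (S'.card / (Vz y * L) ^ k) := by
      have h6 : (1 - ε / 4) * ((1 - ε / 4) * S.card / (Vz y * L) ^ k) ≤ (1 - ε / 4) * (S'.card / (Vz y * L) ^ k) := by
        apply mul_le_mul_of_nonneg_left _ (by linarith)
        exact div_le_div_of_nonneg_right hS'c hVL0.le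
      have h7 : 0 ≤ S.card / (Vz y * L) ^ k := by positivity
      have h8 : (1 - ε / 4) * ((1 - ε / 4) * S.card / (Vz y * L) ^ k) =
          ((1 - ε / 4) * (1 - ε / 4)) * (S.card / (Vz y * L) ^ k) := by ring
      rw [h8] at h6
      have h9 : (1 - ε) + ε / 4 ≤ (1 - ε / 4) * (1 - ε / 4) := by nlinarith
      have h10 := mul_le_mul_of_nonneg_right h9 h7
      linarith
    linarith
  have hle' : (((Fintype.piFinset fun i => Ioc (w i) (w i + G i)).filter (fun n =>
      ((S.filter (fun s => ∀ i, Two (primorial y * n i) (σ i s))).card : ℝ) <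
      (1 - ε) * (S.card / (Vz y * L) ^ k))).card : ℝ) ≤
      (((Fintype.piFinset fun i => Ioc (w i) (w i + G i)).filter (fun n =>
      ((S'.filter (fun s => ∀ i, (primorial y * n i - σ i s).Prime)).card : ℝ) <
      (1 - ε / 4) * (S'.card / (Vz y * L) ^ k))).card : ℝ) := by
    exact_mod_cast hle
  refine le_trans (le_of_eq ?_) (hle'.trans (le_of_eq ?_))
  · congr!
  · congr!

end Pool.Agent.V5helper54.CS
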