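import Pool.Agent.V5helper54.CS.Cons

/-! # Goldbach representations of several numbers with linked summands: the primes `p_(n + a_i)` -/

set_option autoImplicit false

namespace Pool.Agent.V5helper54.CS

open Finset
open Pool.Agent.H373R2.T7
open Pool.Agent.Y877.SX
open Pool.Agent.V5helper51.SG

/-- the number of primes -/
lemma pi_ge (δ : ℝ) (hδ : 0 < δ) : ∃ x0 : ℕ, ∀ x : ℕ, x0 ≤ x →
    (1 - δ) * (x / Real.log x) ≤ (Nat.primeCounting x : ℝ) := by
  have h1 := (Pool.Agent.Helper507.PNT.pi_tendsto.comp (tendsto_natCast_atTop_atTop (R := ℝ))).eventually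
    (lt_mem_nhds (show 1 - δ < 1 by linarith))
  obtain ⟨n1, hn1⟩ := Filter.eventually_atTop.1 h1
  obtain ⟨n2, hn2⟩ := ev_L' 1
  refine ⟨max n1 (max n2 1), fun x hx => ?_⟩
  have b1 : n1 ≤ x := le_trans (le_max_left _ _) hx
  have b2 : n2 ≤ x := le_trans (le_trans (le_max_left _ _) (le_max_right _ _)) hx
  have b3 : 1 ≤ x := le_trans (le_trans (le_max_right _ _) (le_max_right _ _)) hx
  have h2 := hn1 x b1
  simp only [Function.comp_apply, Nat.floor_natCast] at h2
  have hL := hn2 x b2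
  have hx0 : (0 : ℝ) < x := by exact_mod_cast b3
  have hL0 : 0 < Real.log x := by linarith
  rw [lt_div_iff₀ hx0] at h2
  rw [← mul_div_assoc, div_le_iff₀ hL0]
  exact h2.le

open Classical in
/-- the primes `p_(n + a_i)` as summands -/
theorem cons_main (k B : ℕ) (ε : ℝ) (hε : 0 < ε) (hε1 : ε ≤ 1) : ∃ K0 : ℕ, ∀ K1 : ℕ, ∃ D x0 : ℕ,
    ∀ x : ℕ, x0 ≤ x → ∀ y : ℕ, K0 * Real.log (Real.log x) ≤ y → y ≤ K1 * Real.log (Real.log x) →
    ∀ (X w G : Fin k → ℕ), (∀ i, x ≤ X i ∧ (X i : ℝ) ≤ x * Real.log x ^ B) →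
    (∀ i, X i ≤ primorial y * w i ∧ primorial y * (w i + G i) ≤ 2 * X i ∧
      (X i : ℝ) ^ (1 / 3 : ℝ) * Real.log x ^ D ≤ primorial y * G i) →
    ∀ a : Fin k → ℕ, (∀ i, (a i : ℝ) ≤ x / Real.log x ^ 2) →
    (((Fintype.piFinset fun i => Ioc (w i) (w i + G i)).filter (fun m =>
      (((range x).filter (fun n => ∀ i, Nat.nth Nat.Prime (n + a i) ≤ x ∧
        Two (primorial y * m i) (Nat.nth Nat.Prime (n + a i)))).card : ℝ) <
      (1 - ε) * (x / (Vz y ^ k * Real.log x ^ (k + 1))))).card : ℝ) ≤ ε * ∏ i, (G i : ℝ) := by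
  obtain ⟨K0, hK0⟩ := gold_main k 2 B (ε / 2) (by positivity) (by linarith)
  refine ⟨K0, fun K1 => ?_⟩
  obtain ⟨D, x0, hx0⟩ := hK0 K1
  obtain ⟨x1, hx1⟩ := pi_ge (ε / 8) (by positivity)
  obtain ⟨x2, hx2⟩ := ev_L' (max 2 (8 / ε))
  obtain ⟨x3, hx3⟩ := ev_log' 2 1
  refine ⟨D, max x0 (max x1 (max x2 (max x3 1))), fun x hx y hy1 hy2 X w G hX hwG a ha => ?_⟩
  have b0 : x0 ≤ x := le_trans (le_max_left _ _) hx
  have hx' := le_trans (le_max_right _ _) hx
  have b1 : x1 ≤ x := le_trans (le_max_left _ _) hx'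
  have hx' := le_trans (le_max_right _ _) hx'
  have b2 : x2 ≤ x := le_trans (le_max_left _ _) hx'
  have hx' := le_trans (le_max_right _ _) hx'
  have b3 : x3 ≤ x := le_trans (le_max_left _ _) hx'
  have b4 : 1 ≤ x := le_trans (le_max_right _ _) hx'
  have hpi := hx1 x b1
  have hL := hx2 x b2
  have hs := hx3 x b3
  have key := hx0 x b0 y hy1 hy2 X w G hX hwG
  obtain ⟨L, hLd⟩ : ∃ L, L = Real.log (x : ℝ) := ⟨_, rfl⟩
  rw [← hLd] at hpi hL hs ha key ⊢
  have hL2 : 2 ≤ L := (le_max_left _ _).trans hL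
  have hLε : 8 / ε ≤ L := (le_max_right _ _).trans hL
  have hL0 : 0 < L := by linarith
  have hxr : (1 : ℝ) ≤ x := by exact_mod_cast b4
  obtain ⟨H, hHd⟩ : ∃ H : ℕ, H = ⌊(x : ℝ) / L ^ 2⌋₊ := ⟨_, rfl⟩
  have haH : ∀ i, a i ≤ H := by
    intro i
    rw [hHd]
    exact Nat.le_floor (ha i)
  have hH : (H : ℝ) ≤ x / L ^ 2 := by
    rw [hHd]
    exact Nat.floor_le (by positivity)
  have hHle : (x : ℝ) / L ^ 2 ≤ ε / 8 * (x / L) := by
    rw [div_le_iff₀ (by positivity)]
    have h1 : 1 ≤ ε / 8 * L := by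
      rw [div_le_iff₀ hε] at hLε
      linarith
    calc (x : ℝ) = x * 1 := (mul_one _).symm
      _ ≤ x * (ε / 8 * L) := mul_le_mul_of_nonneg_left h1 (by linarith)
      _ = _ := by
        field_simp
  obtain ⟨S, hSd⟩ : ∃ S, S = range (Nat.primeCounting x - H) := ⟨_, rfl⟩
  have hxL0 : 0 < (x : ℝ) / L := by positivity
  have hSc : (1 - ε / 4) * (x / L) ≤ S.card := by
    rw [hSd, card_range]
    have h1 : (Nat.primeCounting x : ℝ) ≤ ((Nat.primeCounting x - H : ℕ) : ℝ) + H := by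
      have : Nat.primeCounting x ≤ (Nat.primeCounting x - H) + H := by omega
      exact_mod_cast this
    nlinarith
  have hmem : ∀ n ∈ S, ∀ i, Nat.nth Nat.Prime (n + a i) ≤ x := by
    intro n hn i
    rw [hSd, mem_range] at hn
    have h1 : n + a i < Nat.count Nat.Prime (x + 1) := by
      have h2 : Nat.count Nat.Prime (x + 1) = Nat.primeCounting x := by
        rw [Nat.primeCounting, Nat.primeCounting']
      have := haH i
      omega
    have h2 := Nat.nth_lt_of_lt_count h1
    omega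
  have hfin := key S (fun i n => Nat.nth Nat.Prime (n + a i)) (by
      intro i m _ n _ h
      have := Nat.nth_injective Nat.infinite_setOfPred_prime h
      omega) (by
      intro i n hn
      exact ⟨Nat.prime_nth_prime _, hmem n hn i⟩) (by
      have h1 : (1 / 2 : ℝ) * (x / L) ≤ S.card := by
        refine le_trans ?_ hSc
        apply mul_le_mul_of_nonneg_right _ hxL0.le
        linarith
      have h2 : (1 / 2 : ℝ) * (x / L) * L ^ 2 ≤ S.card * L ^ 2 := mul_le_mul_of_nonneg_right h1 (by positivity)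
      have h3 : (1 / 2 : ℝ) * (x / L) * L ^ 2 = x * (L / 2) := by
        field_simp
      have h4 : (x : ℝ) ≤ x * (L / 2) := by
        apply le_mul_of_one_le_right (by linarith)
        linarith
      linarith)
  have hP0 : (0 : ℝ) ≤ ∏ i, (G i : ℝ) := prod_nonneg fun _ _ => Nat.cast_nonneg _
  refine le_trans ?_ (hfin.trans (mul_le_mul_of_nonneg_right (by linarith) hP0))
  have hVy := Vz_pos y
  have hSx : S ⊆ range x := by
    intro n hn
    rw [hSd, mem_range] at hn
    have h1 : n < Nat.count Nat.Prime (x + 1) := by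
      have h2 : Nat.count Nat.Prime (x + 1) = Nat.primeCounting x := by
        rw [Nat.primeCounting, Nat.primeCounting']
      omega
    have h2 := Nat.nth_lt_of_lt_count h1
    have h3 : n + 2 ≤ Nat.nth Nat.Prime n := Nat.add_two_le_nth_prime n
    rw [mem_range]
    omega
  have hle : ((Fintype.piFinset fun i => Ioc (w i) (w i + G i)).filter (fun m =>
      (((range x).filter (fun n => ∀ i, Nat.nth Nat.Prime (n + a i) ≤ x ∧
        Two (primorial y * m i) (Nat.nth Nat.Prime (n + a i)))).card : ℝ) <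
      (1 - ε) * (x / (Vz y ^ k * L ^ (k + 1))))).card ≤
      ((Fintype.piFinset fun i => Ioc (w i) (w i + G i)).filter (fun m =>
      ((S.filter (fun n => ∀ i, Two (primorial y * m i) (Nat.nth Nat.Prime (n + a i)))).card : ℝ) <
      (1 - ε / 2) * (S.card / (Vz y * L) ^ k))).card := by
    apply card_le_card
    intro m hm
    rw [mem_filter] at hm ⊢
    refine ⟨hm.1, ?_⟩
    have h1 : ((S.filter (fun n => ∀ i, Two (primorial y * m i) (Nat.nth Nat.Prime (n + a i)))).card : ℝ) ≤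
        (((range x).filter (fun n => ∀ i, Nat.nth Nat.Prime (n + a i) ≤ x ∧
        Two (primorial y * m i) (Nat.nth Nat.Prime (n + a i)))).card : ℝ) := by
      have h2 : (S.filter (fun n => ∀ i, Two (primorial y * m i) (Nat.nth Nat.Prime (n + a i)))).card ≤
        ((range x).filter (fun n => ∀ i, Nat.nth Nat.Prime (n + a i) ≤ x ∧
        Two (primorial y * m i) (Nat.nth Nat.Prime (n + a i)))).card := by
        apply card_le_card
        intro n hn
        rw [mem_filter] at hn ⊢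
        exact ⟨hSx hn.1, fun i => ⟨hmem n hn.1 i, hn.2 i⟩⟩
      exact_mod_cast h2
    refine h1.trans_lt (hm.2.trans_le ?_)
    have h3 : (1 - ε) * (x / (Vz y ^ k * L ^ (k + 1))) = ((1 - ε) * (x / L)) / (Vz y * L) ^ k := by
      rw [mul_pow, pow_succ]
      field_simp
    rw [h3, ← mul_div_assoc (1 - ε / 2)]
    apply div_le_div_of_nonneg_right _ (by positivity)
    calc (1 - ε) * (x / L) ≤ ((1 - ε / 2) * (1 - ε / 4)) * (x / L) := by
          apply mul_le_mul_of_nonneg_right _ hxL0.le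
          nlinarith
      _ = (1 - ε / 2) * ((1 - ε / 4) * (x / L)) := by ring
      _ ≤ (1 - ε / 2) * S.card := mul_le_mul_of_nonneg_left hSc (by linarith)
  have hle' : (((Fintype.piFinset fun i => Ioc (w i) (w i + G i)).filter (fun m =>
      (((range x).filter (fun n => ∀ i, Nat.nth Nat.Prime (n + a i) ≤ x ∧
        Two (primorial y * m i) (Nat.nth Nat.Prime (n + a i)))).card : ℝ) <
      (1 - ε) * (x / (Vz y ^ k * L ^ (k + 1))))).card : ℝ) ≤
      (((Fintype.piFinset fun i => Ioc (w i) (w i + G i)).filter (fun m =>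
      ((S.filter (fun n => ∀ i, Two (primorial y * m i) (Nat.nth Nat.Prime (n + a i)))).card : ℝ) <
      (1 - ε / 2) * (S.card / (Vz y * L) ^ k))).card : ℝ) := by
    exact_mod_cast hle
  refine le_trans (le_of_eq ?_) (hle'.trans (le_of_eq ?_))
  · congr!
  · congr!

end Pool.Agent.V5helper54.CS
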