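import Pool.Agent.V5helper54.CS.InjM
import Pool.Agent.TH665.GP.F1
import Pool.Agent.V5helper50.PW.Base

/-! # Common and linked summands among the iterated prime-indexed primes -/

set_option autoImplicit false

namespace Pool.Agent.V5helper54.CS

open Finset
open Pool.Agent.H373R2.T7
open Pool.Agent.Y877.SX
open Pool.Agent.V5helper51.SG

/-- the primes `p ≤ x` such that `π(p), ..., π^k(p)` are prime -/
noncomputable def PI (k x : ℕ) : Finset ℕ := (Icc 1 x).filter (fun p => ∀ j ≤ k, (Nat.primeCounting^[j] p).Prime)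

lemma pc_inj {p q : ℕ} (hp : p.Prime) (hq : q.Prime) (h : Nat.primeCounting p = Nat.primeCounting q) : p = q := by
  rcases Nat.lt_trichotomy p q with h1 | h1 | h1
  · have := Pool.Agent.V5helper50.PW.pi_lt hq h1
    omega
  · exact h1
  · have := Pool.Agent.V5helper50.PW.pi_lt hp h1
    omega

lemma pc_iter_inj {k x : ℕ} : ∀ j ≤ k, ∀ p ∈ PI k x, ∀ q ∈ PI k x,
    Nat.primeCounting^[j] p = Nat.primeCounting^[j] q → p = q := by
  intro j
  induction j with
  | zero =>
    intro _ p _ q _ h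
    exact h
  | succ j ih =>
    intro hj p hp q hq h
    rw [Function.iterate_succ_apply', Function.iterate_succ_apply'] at h
    exact ih (by omega) p hp q hq (pc_inj ((mem_filter.1 hp).2 j (by omega)) ((mem_filter.1 hq).2 j (by omega)) h)

lemma pc_le (n : ℕ) : Nat.primeCounting n ≤ n := by
  rw [Nat.primeCounting, Nat.primeCounting', Nat.count_eq_card_filter_range]
  calc ((range (n + 1)).filter Nat.Prime).card ≤ (Ioc 0 n).card := by
        apply card_le_card
        intro a ha
        rw [mem_filter, mem_range] at ha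
        rw [mem_Ioc]
        exact ⟨ha.2.pos, by omega⟩
    _ = n := by rw [Nat.card_Ioc, Nat.sub_zero]

lemma pc_iter_le (j n : ℕ) : Nat.primeCounting^[j] n ≤ n := by
  induction j with
  | zero => exact le_rfl
  | succ j ih =>
    rw [Function.iterate_succ_apply']
    exact (pc_le _).trans ih

lemma pc_iter_le' {i j : ℕ} (h : i ≤ j) (n : ℕ) : Nat.primeCounting^[j] n ≤ Nat.primeCounting^[i] n := by
  obtain ⟨d, rfl⟩ := Nat.exists_eq_add_of_le h
  rw [add_comm, Function.iterate_add_apply]
  exact pc_iter_le d _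

lemma pc_iter_mono (j : ℕ) {m n : ℕ} (h : m ≤ n) : Nat.primeCounting^[j] m ≤ Nat.primeCounting^[j] n :=
  Nat.monotone_primeCounting.iterate j h

lemma PI_card_le (k x j : ℕ) (hj : j ≤ k) : (PI k x).card ≤ Nat.primeCounting^[j] x := by
  calc (PI k x).card = ((PI k x).image (fun p => Nat.primeCounting^[j] p)).card := by
        rw [card_image_of_injOn]
        intro p hp q hq h
        exact pc_iter_inj j hj p hp q hq h
    _ ≤ (Icc 1 (Nat.primeCounting^[j] x)).card := by
        apply card_le_card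
        intro a ha
        rw [mem_image] at ha
        obtain ⟨p, hp, rfl⟩ := ha
        have h1 := mem_filter.1 hp
        rw [mem_Icc]
        exact ⟨(h1.2 j hj).pos, pc_iter_mono j (mem_Icc.1 h1.1).2⟩
    _ = _ := by rw [Nat.card_Icc, Nat.add_sub_cancel]

lemma PI_low (k : ℕ) : ∃ c : ℝ, 0 < c ∧ ∃ x0 : ℕ, ∀ x : ℕ, x0 ≤ x → c * x / Real.log x ^ (k + 1) ≤ (PI k x).card := by
  obtain ⟨c, hc, y0, h⟩ := Pool.Agent.TH665.GP.density k
  obtain ⟨x1, hx1⟩ := ev_L' 1
  refine ⟨c, hc, max y0 x1, fun x hx => ?_⟩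
  obtain ⟨S, hS1, hS2, hS3⟩ := h x (le_trans (le_max_left _ _) hx)
  have hL := hx1 x (le_trans (le_max_right _ _) hx)
  have hsub : S ⊆ PI k x := by
    intro p hp
    unfold PI
    rw [mem_filter]
    exact ⟨hS1 hp, hS2 p hp⟩
  have h1 : (S.card : ℝ) ≤ (PI k x).card := by exact_mod_cast card_le_card hsub
  have hL0 : 0 < Real.log x := by linarith
  rw [div_le_iff₀ (by positivity)]
  exact hS3.trans (mul_le_mul_of_nonneg_right h1 (by positivity))

open Classical in
theorem idx_main (K k A B : ℕ) (ε : ℝ) (hε : 0 < ε) (hε1 : ε ≤ 1) : ∃ K0 : ℕ, ∀ K1 : ℕ, ∃ D x0 : ℕ,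
    ∀ x : ℕ, x0 ≤ x → ∀ y : ℕ, K0 * Real.log (Real.log x) ≤ y → y ≤ K1 * Real.log (Real.log x) →
    ∀ (e X w G : Fin K → ℕ), (∀ i, e i ≤ k ∧ Nat.primeCounting^[e i] x ≤ X i ∧ (X i : ℝ) ≤ x * Real.log x ^ B) →
    (∀ i, X i ≤ primorial y * w i ∧ primorial y * (w i + G i) ≤ 2 * X i ∧
      (X i : ℝ) ^ (1 / 3 : ℝ) * Real.log x ^ D ≤ primorial y * G i) →
    ∀ S : Finset ℕ, S ⊆ PI k x → (x : ℝ) ≤ S.card * Real.log x ^ A →
    (((Fintype.piFinset fun i => Ioc (w i) (w i + G i)).filter (fun n =>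
      ((S.filter (fun p => ∀ i, (primorial y * n i - Nat.primeCounting^[e i] p).Prime)).card : ℝ) <
      (1 - ε) * (S.card / (Vz y * Real.log x) ^ K))).card : ℝ) ≤ ε * ∏ i, (G i : ℝ) := by
  obtain ⟨K0, hK0⟩ := inj_minus (α := ℕ) K (A + 1) (max B (k + 2)) (ε / 2) (by positivity) (by linarith)
  refine ⟨K0, fun K1 => ?_⟩
  obtain ⟨D, x0, hx0⟩ := hK0 K1
  obtain ⟨x1, hx1⟩ := one_le_VL K1
  obtain ⟨c, hc, x2, hx2⟩ := PI_low k
  obtain ⟨x3, hx3⟩ := ev_L' (max 2 (1 / c))
  obtain ⟨x4, hx4⟩ := ev_log' (A + 1) (2 * K1 / ε)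
  refine ⟨D, max x0 (max x1 (max x2 (max x3 (max x4 1)))), fun x hx y hy1 hy2 e X w G he hwG S hS hSc => ?_⟩
  have b0 : x0 ≤ x := le_trans (le_max_left _ _) hx
  have hx' := le_trans (le_max_right _ _) hx
  have b1 : x1 ≤ x := le_trans (le_max_left _ _) hx'
  have hx' := le_trans (le_max_right _ _) hx'
  have b2 : x2 ≤ x := le_trans (le_max_left _ _) hx'
  have hx' := le_trans (le_max_right _ _) hx'
  have b3 : x3 ≤ x := le_trans (le_max_left _ _) hx'
  have hx' := le_trans (le_max_right _ _) hx'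
  have b4 : x4 ≤ x := le_trans (le_max_left _ _) hx'
  have b5 : 1 ≤ x := le_trans (le_max_right _ _) hx'
  obtain ⟨hL2, hVL⟩ := hx1 x b1 y hy2
  have hlow := hx2 x b2
  have hL3 := hx3 x b3
  have hs := hx4 x b4
  have key := hx0 x b0 y hy1 hy2
  obtain ⟨L, hLd⟩ : ∃ L, L = Real.log (x : ℝ) := ⟨_, rfl⟩
  rw [← hLd] at hL2 hVL hy1 hy2 hSc hwG he hlow hL3 hs key ⊢
  have hL0 : 0 < L := by linarith
  have hxr : (1 : ℝ) ≤ x := by exact_mod_cast b5
  have hLc : 1 / c ≤ L := (le_max_right _ _).trans hL3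
  have hxPI : (x : ℝ) ≤ (PI k x).card * L ^ (k + 2) := by
    rw [div_le_iff₀ (by positivity)] at hlow
    rw [div_le_iff₀ hc] at hLc
    calc (x : ℝ) = 1 * x := by ring
      _ ≤ (L * c) * x := mul_le_mul_of_nonneg_right hLc (by linarith)
      _ = (c * x) * L := by ring
      _ ≤ ((PI k x).card * L ^ (k + 1)) * L := mul_le_mul_of_nonneg_right hlow hL0.le
      _ = _ := by ring
  have hX : ∀ i, (x : ℝ) ≤ X i * L ^ (max B (k + 2)) ∧ (X i : ℝ) ≤ x * L ^ (max B (k + 2)) := by
    intro i
    obtain ⟨h1, h2, h3⟩ := he i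
    have h4 : ((PI k x).card : ℝ) ≤ X i := by exact_mod_cast (PI_card_le k x (e i) h1).trans h2
    constructor
    · refine hxPI.trans ?_
      apply mul_le_mul h4 (pow_le_pow_right₀ (by linarith) (le_max_right _ _)) (by positivity) (Nat.cast_nonneg _)
    · refine h3.trans ?_
      apply mul_le_mul_of_nonneg_left _ (by linarith)
      exact pow_le_pow_right₀ (by linarith) (le_max_left _ _)
  -- the elements with large index
  obtain ⟨S', hS'd⟩ : ∃ S', S' = S.filter (fun p => y < Nat.primeCounting^[k] p) := ⟨_, rfl⟩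
  have hsub : S' ⊆ S := by rw [hS'd]; exact filter_subset _ _
  have hsmall : (S.filter (fun p => ¬ y < Nat.primeCounting^[k] p)).card ≤ y := by
    calc (S.filter (fun p => ¬ y < Nat.primeCounting^[k] p)).card ≤ (Icc 1 y).card := by
          apply card_le_card_of_injOn (fun p => Nat.primeCounting^[k] p)
          · intro p hp
            rw [mem_coe, mem_filter, not_lt] at hp
            rw [mem_coe, mem_Icc]
            exact ⟨((mem_filter.1 (hS hp.1)).2 k le_rfl).pos, hp.2⟩
          · intro p hp q hq h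
            rw [mem_coe, mem_filter] at hp hq
            exact pc_iter_inj k le_rfl p (hS hp.1) q (hS hq.1) h
      _ = y := by rw [Nat.card_Icc, Nat.add_sub_cancel]
  have hsplit : S'.card + (S.filter (fun p => ¬ y < Nat.primeCounting^[k] p)).card = S.card := by
    rw [hS'd]
    exact card_filter_add_card_filter_not _
  have hloglog : Real.log L ≤ L := (Real.log_le_sub_one_of_pos hL0).trans (by linarith)
  have hyS : (y : ℝ) ≤ ε / 2 * S.card := by
    have h1 : (y : ℝ) ≤ K1 * L := hy2.trans (mul_le_mul_of_nonneg_left hloglog (Nat.cast_nonneg _))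
    have h2 : (y : ℝ) * L ^ A ≤ ε / 2 * x := by
      calc (y : ℝ) * L ^ A ≤ (K1 * L) * L ^ A := mul_le_mul_of_nonneg_right h1 (by positivity)
        _ = ε / 2 * (2 * K1 / ε * L ^ (A + 1)) := by
            rw [pow_succ]
            field_simp
        _ ≤ ε / 2 * √x := mul_le_mul_of_nonneg_left hs (by positivity)
        _ ≤ ε / 2 * x := by
            apply mul_le_mul_of_nonneg_left _ (by positivity)
            rw [Real.sqrt_le_left (by linarith)]
            nlinarith
    have h3 : (y : ℝ) * L ^ A ≤ (ε / 2 * S.card) * L ^ A := by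
      calc (y : ℝ) * L ^ A ≤ ε / 2 * x := h2
        _ ≤ ε / 2 * (S.card * L ^ A) := mul_le_mul_of_nonneg_left hSc (by positivity)
        _ = _ := by ring
    exact le_of_mul_le_mul_right h3 (by positivity)
  have hS'c : (1 - ε / 2) * S.card ≤ S'.card := by
    have h1 : (S'.card : ℝ) + ((S.filter (fun p => ¬ y < Nat.primeCounting^[k] p)).card : ℝ) = S.card := by exact_mod_cast hsplit
    have h2 : ((S.filter (fun p => ¬ y < Nat.primeCounting^[k] p)).card : ℝ) ≤ y := by exact_mod_cast hsmall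
    linarith
  have hS0 : (0 : ℝ) ≤ S.card := Nat.cast_nonneg _
  have hfin := key X hX S' (fun i p => Nat.primeCounting^[e i] p) (by
      intro i p hp q hq h
      exact pc_iter_inj (e i) (he i).1 p (hS (hsub hp)) q (hS (hsub hq)) h) (by
      intro i p hp
      have h1 := mem_filter.1 (hS (hsub hp))
      exact ⟨(h1.2 (e i) (he i).1).pos, (pc_iter_mono (e i) (mem_Icc.1 h1.1).2).trans (he i).2.1⟩) (by
      calc (x : ℝ) ≤ S.card * L ^ A := hSc
        _ ≤ (2 * S'.card) * L ^ A := by
            apply mul_le_mul_of_nonneg_right _ (by positivity)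
            nlinarith
        _ = S'.card * (L ^ A * 2) := by ring
        _ ≤ S'.card * (L ^ A * L) := by gcongr
        _ = _ := by rw [pow_succ]) (by
      intro i p hp q hq hqy hd
      have h1 := mem_filter.1 (hS (hsub hp))
      have h2 := h1.2 (e i) (he i).1
      rw [hS'd, mem_filter] at hp
      have h3 := (Nat.prime_dvd_prime_iff_eq hq h2).1 hd
      have h4 := pc_iter_le' (he i).1 p
      omega) w G hwG
  have hP0 : (0 : ℝ) ≤ ∏ i, (G i : ℝ) := prod_nonneg fun _ _ => Nat.cast_nonneg _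
  refine le_trans ?_ (hfin.trans (mul_le_mul_of_nonneg_right (by linarith) hP0))
  have hle : ((Fintype.piFinset fun i => Ioc (w i) (w i + G i)).filter (fun n =>
      ((S.filter (fun p => ∀ i, (primorial y * n i - Nat.primeCounting^[e i] p).Prime)).card : ℝ) <
      (1 - ε) * (S.card / (Vz y * L) ^ K))).card ≤
      ((Fintype.piFinset fun i => Ioc (w i) (w i + G i)).filter (fun n =>
      ((S'.filter (fun p => ∀ i, (primorial y * n i - Nat.primeCounting^[e i] p).Prime)).card : ℝ) <
      (1 - ε / 2) * (S'.card / (Vz y * L) ^ K))).card := by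
    apply card_le_card
    intro n hn
    rw [mem_filter] at hn ⊢
    refine ⟨hn.1, ?_⟩
    have h1 : ((S'.filter (fun p => ∀ i, (primorial y * n i - Nat.primeCounting^[e i] p).Prime)).card : ℝ) ≤
        ((S.filter (fun p => ∀ i, (primorial y * n i - Nat.primeCounting^[e i] p).Prime)).card : ℝ) := by
      exact_mod_cast card_le_card (filter_subset_filter _ hsub)
    refine h1.trans_lt (hn.2.trans_le ?_)
    have hVL0 : 0 < (Vz y * L) ^ K := by
      have := Vz_pos y
      positivity
    rw [← mul_div_assoc, ← mul_div_assoc]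
    apply div_le_div_of_nonneg_right _ hVL0.le
    have h3 : (1 - ε / 2) * ((1 - ε / 2) * S.card) ≤ (1 - ε / 2) * S'.card :=
      mul_le_mul_of_nonneg_left hS'c (by linarith)
    nlinarith
  have hle' : (((Fintype.piFinset fun i => Ioc (w i) (w i + G i)).filter (fun n =>
      ((S.filter (fun p => ∀ i, (primorial y * n i - Nat.primeCounting^[e i] p).Prime)).card : ℝ) <
      (1 - ε) * (S.card / (Vz y * L) ^ K))).card : ℝ) ≤
      (((Fintype.piFinset fun i => Ioc (w i) (w i + G i)).filter (fun n =>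
      ((S'.filter (fun p => ∀ i, (primorial y * n i - Nat.primeCounting^[e i] p).Prime)).card : ℝ) <
      (1 - ε / 2) * (S'.card / (Vz y * L) ^ K))).card : ℝ) := by
    exact_mod_cast hle
  refine le_trans (le_of_eq ?_) (hle'.trans (le_of_eq ?_))
  · congr!
  · congr!

end Pool.Agent.V5helper54.CS
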