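import Pool.Agent.V5helper54.CS.Step3

/-! # Several injective images of a dense set and most translations in short windows -/

set_option autoImplicit false

namespace Pool.Agent.V5helper54.CS

open Finset
open Pool.Agent.H373R2.T7
open Pool.Agent.Y877.SX
open Pool.Agent.V5helper51.SG

open Classical in
/-- **Several injections.** For all but `ε ∏ G_i` of the vectors `m` of the windows at least `(1 - ε) #S / (V log x)^k` of
the `s ∈ S` are such that all `f_i(s) + M m_i` are prime. -/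
theorem inj_all {α : Type*} (k A : ℕ) (ε : ℝ) (hε : 0 < ε) (hε1 : ε ≤ 1) : ∃ K0 : ℕ, ∀ K1 : ℕ, ∃ D x0 : ℕ, ∀ x : ℕ, x0 ≤ x →
    ∀ y : ℕ, K0 * Real.log (Real.log x) ≤ y → y ≤ K1 * Real.log (Real.log x) →
    ∀ (S : Finset α) (f : Fin k → α → ℕ), (∀ i, Set.InjOn (f i) S) → (∀ i, ∀ s ∈ S, 1 ≤ f i s ∧ f i s ≤ x) →
    (x : ℝ) ≤ S.card * Real.log x ^ A →
    (∀ i, ∀ s ∈ S, ∀ p : ℕ, p.Prime → p ≤ y → ¬ p ∣ f i s) →
    ∀ w G : Fin k → ℕ, (∀ i, primorial y * (w i + G i) ≤ x ∧
      (x : ℝ) ^ (1 / 3 : ℝ) * Real.log x ^ D ≤ primorial y * G i) →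
    (((Fintype.piFinset fun i => Ioc (w i) (w i + G i)).filter (fun n =>
      ((S.filter (fun s => ∀ i, (f i s + primorial y * n i).Prime)).card : ℝ) <
      (1 - ε) * (S.card / (Vz y * Real.log x) ^ k))).card : ℝ) ≤ ε * ∏ i, (G i : ℝ) := by
  obtain ⟨η, hηd⟩ : ∃ η : ℝ, η = ε / (2 * (k + 1)) := ⟨_, rfl⟩
  have hk0 : (0 : ℝ) ≤ k := Nat.cast_nonneg k
  have hη : 0 < η := by rw [hηd]; positivity
  have hη1 : η ≤ 1 / 2 := by
    rw [hηd, div_le_div_iff₀ (by positivity) (by norm_num)]
    nlinarith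
  have hkη : k * η ≤ ε := by
    rw [hηd, ← mul_div_assoc, div_le_iff₀ (by positivity)]
    nlinarith
  obtain ⟨K0, hK0⟩ := affine_step (A + 2 * k) 1 η hη (by linarith)
  refine ⟨K0, fun K1 => ?_⟩
  obtain ⟨D, x0, hx0⟩ := hK0 K1
  obtain ⟨x1, hx1⟩ := one_le_VL K1
  refine ⟨D, max x0 (max x1 1), fun x hx y hy1 hy2 S f hinj hfx hSc hSp w G hwG => ?_⟩
  have b1 : x0 ≤ x := le_trans (le_max_left _ _) hx
  have b2 : x1 ≤ x := le_trans (le_trans (le_max_left _ _) (le_max_right _ _)) hx
  have b4 : 1 ≤ x := le_trans (le_trans (le_max_right _ _) (le_max_right _ _)) hx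
  obtain ⟨hL2, hVL⟩ := hx1 x b2 y hy2
  have key := hx0 x b1 y hy1 hy2
  obtain ⟨L, hLd⟩ : ∃ L, L = Real.log (x : ℝ) := ⟨_, rfl⟩
  rw [← hLd] at hL2 hVL hy1 hy2 hSc hwG key ⊢
  have hL0 : 0 < L := by linarith
  have hVy := Vz_pos y
  have hVy1 := Vz_le_one y
  have hVLL : Vz y * L ≤ L := mul_le_of_le_one_left hL0.le hVy1
  obtain ⟨ρ, hρd⟩ : ∃ ρ : ℝ, ρ = (1 - η) / (Vz y * L) := ⟨_, rfl⟩
  have hVL0 : 0 < Vz y * L := by positivity
  have hρ0 : 0 ≤ ρ := by rw [hρd]; exact div_nonneg (by linarith) hVL0.le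
  have hρ1 : ρ ≤ 1 := by
    rw [hρd, div_le_one hVL0]
    linarith
  have hρL : 1 / L ^ 2 ≤ ρ := by
    rw [hρd, div_le_div_iff₀ (by positivity) hVL0, one_mul]
    nlinarith
  have hS0 : (0 : ℝ) ≤ S.card := Nat.cast_nonneg _
  have hit := iter η ρ (x / L ^ (A + 2 * k)) hη.le hρ0 hρ1 k (fun i => Ioc (w i) (w i + G i))
    (fun i n s => (f i s + primorial y * n).Prime) S (by
      intro i T hT hTc
      have hinjT : Set.InjOn (f i) (T : Set α) := (hinj i).mono (by exact_mod_cast hT)
      have hcard : (T.image (f i)).card = T.card := card_image_of_injOn hinjT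
      have h1 := key (T.image (f i)) (by
        intro a ha
        rw [mem_image] at ha
        obtain ⟨s, hs, rfl⟩ := ha
        rw [mem_Icc]
        exact hfx i s (hT hs)) (by
        rw [hcard]
        rwa [div_le_iff₀ (by positivity)] at hTc) 1 0 le_rfl le_rfl (Nat.zero_le _) (by
        intro a ha p hp hpy hd
        rw [mem_image] at ha
        obtain ⟨s, hs, rfl⟩ := ha
        rw [one_mul, add_zero] at hd
        exact hSp i s (hT hs) p hp hpy hd) (w i) (G i) (hwG i).1 (hwG i).2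
      rw [hcard] at h1
      have h2 : (1 - η) * ((T.card : ℝ) / (Vz y * L)) = ρ * T.card := by
        rw [hρd]
        ring
      rw [h2] at h1
      rw [Nat.card_Ioc, Nat.add_sub_cancel_left]
      refine le_trans (le_of_eq ?_) h1
      congr 2
      apply filter_congr
      intro n _
      have h3 : (T.filter (fun a => (f i a + primorial y * n).Prime)).card =
          ((T.image (f i)).filter (fun s => (1 * s + 0 + primorial y * n).Prime)).card := by
        rw [filter_image, card_image_of_injOn (hinjT.mono (by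
          intro a ha
          exact (mem_filter.1 ha).1))]
        congr 1
        apply filter_congr
        intro a _
        rw [one_mul, add_zero]
      have h4 : ∀ a b c : ℕ, a = b → ((a : ℝ) < ρ * c ↔ (b : ℝ) < ρ * c) := by
        intro a b c h
        rw [h]
      apply h4
      convert h3) (by
      rw [div_le_iff₀ (by positivity)]
      have h1 : (1 / L ^ 2) ^ k ≤ ρ ^ k := pow_le_pow_left₀ (by positivity) hρL k
      have h2 : (1 / L ^ 2) ^ k * L ^ (A + 2 * k) = L ^ A := by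
        rw [pow_add, pow_mul, div_pow, one_pow]
        field_simp
      calc (x : ℝ) ≤ S.card * L ^ A := hSc
        _ = S.card * ((1 / L ^ 2) ^ k * L ^ (A + 2 * k)) := by rw [h2]
        _ ≤ S.card * (ρ ^ k * L ^ (A + 2 * k)) := by gcongr
        _ = _ := by ring)
  have hP0 : (0 : ℝ) ≤ ∏ i, (G i : ℝ) := prod_nonneg fun _ _ => Nat.cast_nonneg _
  have hcardG : ∏ i, (((Ioc (w i) (w i + G i)).card : ℕ) : ℝ) = ∏ i, (G i : ℝ) := by
    apply prod_congr rfl
    intro i _
    rw [Nat.card_Ioc, Nat.add_sub_cancel_left]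
  rw [hcardG] at hit
  refine le_trans ?_ (hit.trans (mul_le_mul_of_nonneg_right hkη hP0))
  have hle : ((Fintype.piFinset fun i => Ioc (w i) (w i + G i)).filter (fun n =>
      ((S.filter (fun s => ∀ i, (f i s + primorial y * n i).Prime)).card : ℝ) <
      (1 - ε) * (S.card / (Vz y * L) ^ k))).card ≤
      ((Fintype.piFinset fun i => Ioc (w i) (w i + G i)).filter (fun n =>
      ((S.filter (fun s => ∀ i, (f i s + primorial y * n i).Prime)).card : ℝ) < ρ ^ k * S.card)).card := by
    apply card_le_card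
    intro n hn
    rw [mem_filter] at hn ⊢
    refine ⟨hn.1, hn.2.trans_le ?_⟩
    have h1 : 1 - ε ≤ (1 - η) ^ k := by
      have h2 := one_add_mul_le_pow (a := -η) (by linarith) k
      have h3 : (1 + -η) = 1 - η := by ring
      rw [h3] at h2
      linarith
    have h2 : ρ ^ k * (S.card : ℝ) = (1 - η) ^ k * (S.card / (Vz y * L) ^ k) := by
      rw [hρd, div_pow]
      ring
    rw [h2]
    exact mul_le_mul_of_nonneg_right h1 (by positivity)
  have hle' : (((Fintype.piFinset fun i => Ioc (w i) (w i + G i)).filter (fun n =>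
      ((S.filter (fun s => ∀ i, (f i s + primorial y * n i).Prime)).card : ℝ) <
      (1 - ε) * (S.card / (Vz y * L) ^ k))).card : ℝ) ≤
      (((Fintype.piFinset fun i => Ioc (w i) (w i + G i)).filter (fun n =>
      ((S.filter (fun s => ∀ i, (f i s + primorial y * n i).Prime)).card : ℝ) < ρ ^ k * S.card)).card : ℝ) := by
    exact_mod_cast hle
  refine le_trans (le_of_eq ?_) (hle'.trans (le_of_eq ?_))
  · congr!
  · congr!

end Pool.Agent.V5helper54.CS
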