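import Pool.Agent.V5helper54.CS.Step3

/-! # Several injective images of a dense set and most integers in short windows: differences -/

set_option autoImplicit false

namespace Pool.Agent.V5helper54.CS

open Finset
open Pool.Agent.H373R2.T7
open Pool.Agent.Y877.SX
open Pool.Agent.V5helper51.SG

/-- logarithms of numbers which differ by a power of the logarithm -/
lemma log_cmp2 (B : ℕ) (δ : ℝ) (hδ : 0 < δ) (hδ1 : δ ≤ 1 / 2) : ∃ x0 : ℕ, ∀ x : ℕ, x0 ≤ x → ∀ X : ℕ,
    (x : ℝ) ≤ X * Real.log x ^ B → (X : ℝ) ≤ x * Real.log x ^ B →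
    16 ≤ Real.log x ∧ 1 ≤ X ∧ x ≤ X ^ 2 ∧ Real.log X ≤ (1 + δ) * Real.log x ∧ (1 - δ) * Real.log x ≤ Real.log X ∧
    Real.log (Real.log X) ≤ 2 * Real.log (Real.log x) ∧ Real.log (Real.log x) ≤ 2 * Real.log (Real.log X) := by
  obtain ⟨n2, hn2⟩ := Filter.eventually_atTop.1 (Pool.Agent.Y614.GJ.Core.ev_log B (s := δ) hδ 16)
  refine ⟨max n2 1, fun x hx X h1 h2 => ?_⟩
  have b2 : n2 ≤ x := le_trans (le_max_left _ _) hx
  have b3 : 1 ≤ x := le_trans (le_max_right _ _) hx
  obtain ⟨hL, hlog⟩ := hn2 x b2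
  have hx0 : (0 : ℝ) < x := by exact_mod_cast b3
  have hx1 : (1 : ℝ) ≤ x := by exact_mod_cast b3
  have hL0 : 0 < Real.log x := by linarith
  have hX0 : 1 ≤ X := by
    rcases Nat.eq_zero_or_pos X with h | h
    · rw [h, Nat.cast_zero, zero_mul] at h1
      linarith
    · exact h
  have hX0r : (0 : ℝ) < X := by exact_mod_cast hX0
  have a1 : (X : ℝ) ≤ (x : ℝ) ^ (1 + δ) := by
    rw [Real.rpow_add hx0, Real.rpow_one]
    exact h2.trans (mul_le_mul_of_nonneg_left hlog hx0.le)
  have a2 : (x : ℝ) ^ (1 - δ) ≤ X := by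
    rw [Real.rpow_sub hx0, Real.rpow_one, div_le_iff₀ (by positivity)]
    exact h1.trans (mul_le_mul_of_nonneg_left hlog hX0r.le)
  have c1 : Real.log X ≤ (1 + δ) * Real.log x := by
    rw [← Real.log_rpow hx0]
    exact Real.log_le_log hX0r a1
  have c2 : (1 - δ) * Real.log x ≤ Real.log X := by
    rw [← Real.log_rpow hx0]
    exact Real.log_le_log (by positivity) a2
  have hLX : 8 ≤ Real.log X := by nlinarith
  have hLX0 : 0 < Real.log X := by linarith
  refine ⟨hL, hX0, ?_, c1, c2, ?_, ?_⟩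
  · have h3 : (x : ℝ) ≤ (X : ℝ) ^ 2 := by
      calc (x : ℝ) = ((x : ℝ) ^ (1 / 2 : ℝ)) ^ 2 := by
            rw [← Real.rpow_natCast, ← Real.rpow_mul hx0.le]
            norm_num
        _ ≤ ((x : ℝ) ^ (1 - δ)) ^ 2 := by
            apply pow_le_pow_left₀ (by positivity)
            exact Real.rpow_le_rpow_of_exponent_le hx1 (by linarith)
        _ ≤ (X : ℝ) ^ 2 := pow_le_pow_left₀ (by positivity) a2 2
    exact_mod_cast h3
  · have h3 : Real.log X ≤ Real.log x ^ 2 := by nlinarith
    calc Real.log (Real.log X) ≤ Real.log (Real.log x ^ 2) := Real.log_le_log hLX0 h3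
      _ = _ := by
        rw [Real.log_pow]
        norm_num
  · have h3 : Real.log x ≤ Real.log X ^ 2 := by
      have h4 : Real.log x ≤ 2 * Real.log X := by nlinarith
      nlinarith
    calc Real.log (Real.log x) ≤ Real.log (Real.log X ^ 2) := Real.log_le_log hL0 h3
      _ = _ := by
        rw [Real.log_pow]
        norm_num

open Classical in
/-- differences between multiples of the primorial and the elements of a dense set -/
theorem minus_step (A : ℕ) (ε : ℝ) (hε : 0 < ε) (hε1 : ε ≤ 1) : ∃ K0 : ℕ, ∀ K1 : ℕ, ∃ D x0 : ℕ, ∀ x : ℕ, x0 ≤ x →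
    ∀ y : ℕ, K0 * Real.log (Real.log x) ≤ y → y ≤ K1 * Real.log (Real.log x) →
    ∀ S : Finset ℕ, S ⊆ Icc 1 x → (x : ℝ) ≤ S.card * Real.log x ^ A → (∀ s ∈ S, ∀ p : ℕ, p.Prime → p ≤ y → ¬ p ∣ s) →
    ∀ w G : ℕ, x ≤ primorial y * w → primorial y * (w + G) ≤ 2 * x →
    (x : ℝ) ^ (1 / 3 : ℝ) * Real.log x ^ D ≤ primorial y * G →
    (((Ioc w (w + G)).filter (fun n => ((S.filter (fun s => (primorial y * n - s).Prime)).card : ℝ) <
      (1 - ε) * (S.card / (Vz y * Real.log x)))).card : ℝ) ≤ ε * G := by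
  obtain ⟨δ, hδd⟩ : ∃ δ, δ = ε / 8 := ⟨_, rfl⟩
  have hδ : 0 < δ := by rw [hδd]; positivity
  have hδ8 : δ ≤ 1 / 8 := by rw [hδd]; linarith
  obtain ⟨K0, hK0⟩ := shifts_short Pool.Agent.V5helper51.MW.las_all A δ hδ
  refine ⟨K0, fun K1 => ?_⟩
  obtain ⟨D, x0, hx0⟩ := hK0 K1
  obtain ⟨x2, hx2⟩ := ev_L' (max 2 (1 / δ))
  refine ⟨D, max x0 (max x2 1), fun x hx y hy1 hy2 S hS hSc hSp w G hw1 hw2 hG => ?_⟩
  have b1 : x0 ≤ x := le_trans (le_max_left _ _) hx
  have b2 : x2 ≤ x := le_trans (le_trans (le_max_left _ _) (le_max_right _ _)) hx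
  have b3 : 1 ≤ x := le_trans (le_trans (le_max_right _ _) (le_max_right _ _)) hx
  have hL := hx2 x b2
  have hL2 : 2 ≤ Real.log x := (le_max_left _ _).trans hL
  have hLδ : 1 / δ ≤ Real.log x := (le_max_right _ _).trans hL
  have hx0r : (0 : ℝ) < x := by exact_mod_cast b3
  have hL0 : 0 < Real.log x := by linarith
  have hVy := Vz_pos y
  have hlog2 : Real.log (2 * (x : ℝ)) ≤ (1 + δ) * Real.log x := by
    rw [Real.log_mul (by norm_num) hx0r.ne']
    have h1 : Real.log 2 ≤ 1 := by
      have := Real.log_two_lt_d9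
      linarith
    have h2 : 1 ≤ δ * Real.log x := by
      rw [div_le_iff₀ hδ] at hLδ
      linarith
    linarith
  have key := hx0 x b1 y hy1 hy2 S hS hSc hSp w G hw1 hw2 hG
  have hGr : (0 : ℝ) ≤ G := Nat.cast_nonneg _
  refine le_trans ?_ (key.trans (by
    have : 2 * δ ≤ ε := by rw [hδd]; linarith
    exact mul_le_mul_of_nonneg_right this hGr))
  have hle : ((Ioc w (w + G)).filter (fun n => ((S.filter (fun s => (primorial y * n - s).Prime)).card : ℝ) <
      (1 - ε) * (S.card / (Vz y * Real.log x)))).card ≤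
      ((Icc 1 G).filter (fun g => ((S.filter (fun s => (primorial y * (w + g) - s).Prime)).card : ℝ) *
      Real.log (2 * (x : ℝ)) < (1 - 3 * δ) * (S.card * (Vz y)⁻¹))).card := by
    apply card_le_card_of_injOn (fun n => n - w)
    · intro n hn
      rw [mem_coe, mem_filter, mem_Ioc] at hn
      rw [mem_coe, mem_filter, mem_Icc]
      refine ⟨by dsimp only; omega, ?_⟩
      have h1 : w + (n - w) = n := by omega
      dsimp only
      rw [h1]
      have hc : (0 : ℝ) ≤ ((S.filter (fun s => (primorial y * n - s).Prime)).card : ℝ) := Nat.cast_nonneg _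
      have hS0 : (0 : ℝ) ≤ S.card := Nat.cast_nonneg _
      rcases hS0.eq_or_lt with h0 | h0
      · exfalso
        have := hn.2
        rw [← h0, zero_div, mul_zero] at this
        linarith
      calc ((S.filter (fun s => (primorial y * n - s).Prime)).card : ℝ) * Real.log (2 * (x : ℝ)) ≤
          ((S.filter (fun s => (primorial y * n - s).Prime)).card : ℝ) * ((1 + δ) * Real.log x) :=
            mul_le_mul_of_nonneg_left hlog2 hc
        _ < ((1 - ε) * (S.card / (Vz y * Real.log x))) * ((1 + δ) * Real.log x) := by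
            apply mul_lt_mul_of_pos_right hn.2
            positivity
        _ = ((1 - ε) * (1 + δ)) * (S.card * (Vz y)⁻¹) := by
            field_simp
        _ ≤ (1 - 3 * δ) * (S.card * (Vz y)⁻¹) := by
            apply mul_le_mul_of_nonneg_right _ (by positivity)
            rw [hδd]
            nlinarith
    · intro a ha b hb hab
      rw [mem_coe, mem_filter, mem_Ioc] at ha hb
      simp only at hab
      omega
  exact_mod_cast hle

open Classical in
/-- **Several injections, differences.** For all but `ε ∏ G_i` of the vectors `m` of the windows at least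
`(1 - ε) #S / (V log x)^k` of the `s ∈ S` are such that all `M m_i - f_i(s)` are prime. -/
theorem inj_minus {α : Type*} (k A B : ℕ) (ε : ℝ) (hε : 0 < ε) (hε1 : ε ≤ 1) : ∃ K0 : ℕ, ∀ K1 : ℕ, ∃ D x0 : ℕ,
    ∀ x : ℕ, x0 ≤ x → ∀ y : ℕ, K0 * Real.log (Real.log x) ≤ y → y ≤ K1 * Real.log (Real.log x) →
    ∀ X : Fin k → ℕ, (∀ i, (x : ℝ) ≤ X i * Real.log x ^ B ∧ (X i : ℝ) ≤ x * Real.log x ^ B) →
    ∀ (S : Finset α) (f : Fin k → α → ℕ), (∀ i, Set.InjOn (f i) S) → (∀ i, ∀ s ∈ S, 1 ≤ f i s ∧ f i s ≤ X i) →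
    (x : ℝ) ≤ S.card * Real.log x ^ A →
    (∀ i, ∀ s ∈ S, ∀ p : ℕ, p.Prime → p ≤ y → ¬ p ∣ f i s) →
    ∀ w G : Fin k → ℕ, (∀ i, X i ≤ primorial y * w i ∧ primorial y * (w i + G i) ≤ 2 * X i ∧
      (X i : ℝ) ^ (1 / 3 : ℝ) * Real.log x ^ D ≤ primorial y * G i) →
    (((Fintype.piFinset fun i => Ioc (w i) (w i + G i)).filter (fun n =>
      ((S.filter (fun s => ∀ i, (primorial y * n i - f i s).Prime)).card : ℝ) <
      (1 - ε) * (S.card / (Vz y * Real.log x) ^ k))).card : ℝ) ≤ ε * ∏ i, (G i : ℝ) := by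
  obtain ⟨η, hηd⟩ : ∃ η : ℝ, η = ε / (2 * (k + 1)) := ⟨_, rfl⟩
  have hk0 : (0 : ℝ) ≤ k := Nat.cast_nonneg k
  have hη : 0 < η := by rw [hηd]; positivity
  have hη1 : η ≤ 1 / 2 := by
    rw [hηd, div_le_div_iff₀ (by positivity) (by norm_num)]
    nlinarith
  have hkη : k * η ≤ ε := by
    rw [hηd, ← mul_div_assoc, div_le_iff₀ (by positivity)]
    nlinarith
  obtain ⟨K0, hK0⟩ := minus_step (2 * (A + 2 * k + B)) (η / 4) (by positivity) (by linarith)
  refine ⟨2 * K0, fun K1 => ?_⟩
  obtain ⟨D, x0, hx0⟩ := hK0 (2 * K1)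
  obtain ⟨x1, hx1⟩ := one_le_VL K1
  obtain ⟨x2, hx2⟩ := log_cmp2 B (η / 4) (by positivity) (by linarith)
  refine ⟨2 * D, max (x0 ^ 2) (max x1 (max x2 1)), fun x hx y hy1 hy2 X hX S f hinj hfx hSc hSp w G hwG => ?_⟩
  have b1 : x0 ^ 2 ≤ x := le_trans (le_max_left _ _) hx
  have b2 : x1 ≤ x := le_trans (le_trans (le_max_left _ _) (le_max_right _ _)) hx
  have b3 : x2 ≤ x := le_trans (le_trans (le_trans (le_max_left _ _) (le_max_right _ _)) (le_max_right _ _)) hx
  have b4 : 1 ≤ x := le_trans (le_trans (le_trans (le_max_right _ _) (le_max_right _ _)) (le_max_right _ _)) hx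
  obtain ⟨hL2, hVL⟩ := hx1 x b2 y hy2
  have hcmp := fun i => hx2 x b3 (X i) (hX i).1 (hX i).2
  obtain ⟨L, hLd⟩ : ∃ L, L = Real.log (x : ℝ) := ⟨_, rfl⟩
  rw [← hLd] at hL2 hVL hy1 hy2 hSc hwG hX ⊢
  have hL0 : 0 < L := by linarith
  have hVy := Vz_pos y
  have hVy1 := Vz_le_one y
  have hVLL : Vz y * L ≤ L := mul_le_of_le_one_left hL0.le hVy1
  obtain ⟨ρ, hρd⟩ : ∃ ρ : ℝ, ρ = (1 - η) / (Vz y * L) := ⟨_, rfl⟩
  have hVL0 : 0 < Vz y * L := by positivity
  have hρ0 : 0 ≤ ρ := by rw [hρd]; exact div_nonneg (by linarith) hVL0.le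
  have hρ1 : ρ ≤ 1 := by
    rw [hρd, div_le_one hVL0]
    linarith
  have hρL : 1 / L ^ 2 ≤ ρ := by
    rw [hρd, div_le_div_iff₀ (by positivity) hVL0, one_mul]
    nlinarith
  have hS0 : (0 : ℝ) ≤ S.card := Nat.cast_nonneg _
  have hit := iter η ρ (x / L ^ (A + 2 * k)) hη.le hρ0 hρ1 k (fun i => Ioc (w i) (w i + G i))
    (fun i n s => (primorial y * n - f i s).Prime) S (by
      intro i T hT hTc
      obtain ⟨e0, e1, e2, e3, e4, e5, e6⟩ := hcmp i
      rw [← hLd] at e0 e3 e4 e5 e6
      obtain ⟨LX, hLXd⟩ : ∃ LX, LX = Real.log (X i : ℝ) := ⟨_, rfl⟩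
      rw [← hLXd] at e3 e4 e5 e6
      have hLX8 : 8 ≤ LX := by nlinarith
      have hLX0 : 0 < LX := by linarith
      have hLLX : L ≤ LX ^ 2 := by nlinarith
      have hLXL : LX ≤ L ^ 2 := by nlinarith
      have hinjT : Set.InjOn (f i) (T : Set α) := (hinj i).mono (by exact_mod_cast hT)
      have hcard : (T.image (f i)).card = T.card := card_image_of_injOn hinjT
      have hT0 : (0 : ℝ) ≤ T.card := Nat.cast_nonneg _
      have hlogL : 0 ≤ Real.log L := Real.log_nonneg (by linarith)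
      have h1 := hx0 (X i) (by
          have : x0 ^ 2 ≤ X i ^ 2 := b1.trans e2
          exact (Nat.pow_le_pow_iff_left (by norm_num)).1 this) y (by
          rw [← hLXd]
          have h2 : (K0 : ℝ) * Real.log LX ≤ K0 * (2 * Real.log L) := mul_le_mul_of_nonneg_left e5 (Nat.cast_nonneg _)
          have h3 : ((2 * K0 : ℕ) : ℝ) * Real.log L = K0 * (2 * Real.log L) := by push_cast; ring
          linarith) (by
          rw [← hLXd]
          have h2 : (K1 : ℝ) * Real.log L ≤ K1 * (2 * Real.log LX) := mul_le_mul_of_nonneg_left e6 (Nat.cast_nonneg _)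
          have h3 : ((2 * K1 : ℕ) : ℝ) * Real.log LX = K1 * (2 * Real.log LX) := by push_cast; ring
          linarith) (T.image (f i)) (by
        intro a ha
        rw [mem_image] at ha
        obtain ⟨s, hs, rfl⟩ := ha
        rw [mem_Icc]
        exact hfx i s (hT hs)) (by
        rw [hcard, ← hLXd]
        rw [div_le_iff₀ (by positivity)] at hTc
        calc (X i : ℝ) ≤ x * L ^ B := (hX i).2
          _ ≤ (T.card * L ^ (A + 2 * k)) * L ^ B := mul_le_mul_of_nonneg_right hTc (by positivity)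
          _ = T.card * L ^ (A + 2 * k + B) := by ring
          _ ≤ T.card * (LX ^ 2) ^ (A + 2 * k + B) := by gcongr
          _ = _ := by rw [← pow_mul]) (by
        intro a ha p hp hpy hd
        rw [mem_image] at ha
        obtain ⟨s, hs, rfl⟩ := ha
        exact hSp i s (hT hs) p hp hpy hd) (w i) (G i) (hwG i).1 (hwG i).2.1 (by
        refine le_trans ?_ (hwG i).2.2
        rw [← hLXd]
        apply mul_le_mul_of_nonneg_left _ (by positivity)
        calc LX ^ D ≤ (L ^ 2) ^ D := pow_le_pow_left₀ hLX0.le hLXL D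
          _ = _ := by rw [← pow_mul])
      rw [hcard, ← hLXd] at h1
      rw [Nat.card_Ioc, Nat.add_sub_cancel_left]
      have hGr : (0 : ℝ) ≤ G i := Nat.cast_nonneg _
      refine le_trans ?_ (h1.trans (mul_le_mul_of_nonneg_right (by linarith) hGr))
      have hle : ((Ioc (w i) (w i + G i)).filter (fun n =>
          ((T.filter (fun a => (primorial y * n - f i a).Prime)).card : ℝ) < ρ * T.card)).card ≤
          ((Ioc (w i) (w i + G i)).filter (fun n =>
          (((T.image (f i)).filter (fun s => (primorial y * n - s).Prime)).card : ℝ) <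
          (1 - η / 4) * (T.card / (Vz y * LX)))).card := by
        apply card_le_card
        intro n hn
        rw [mem_filter] at hn ⊢
        refine ⟨hn.1, ?_⟩
        have h3 : ((T.image (f i)).filter (fun s => (primorial y * n - s).Prime)).card =
            (T.filter (fun a => (primorial y * n - f i a).Prime)).card := by
          rw [filter_image, card_image_of_injOn (hinjT.mono (by
            intro a ha
            exact (mem_filter.1 ha).1))]
        rw [h3]
        refine hn.2.trans_le ?_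
        rw [hρd, div_mul_eq_mul_div, ← mul_div_assoc, div_le_div_iff₀ hVL0 (by positivity)]
        have h4 : (1 - η) * LX ≤ (1 - η / 4) * L := by
          calc (1 - η) * LX ≤ (1 - η) * ((1 + η / 4) * L) := mul_le_mul_of_nonneg_left e3 (by linarith)
            _ = ((1 - η) * (1 + η / 4)) * L := by ring
            _ ≤ (1 - η / 4) * L := by
                apply mul_le_mul_of_nonneg_right _ hL0.le
                nlinarith
        calc (1 - η) * (T.card : ℝ) * (Vz y * LX) = ((1 - η) * LX) * (T.card * Vz y) := by ring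
          _ ≤ ((1 - η / 4) * L) * (T.card * Vz y) := mul_le_mul_of_nonneg_right h4 (by positivity)
          _ = _ := by ring
      have hle2 : (((Ioc (w i) (w i + G i)).filter (fun n =>
          ((T.filter (fun a => (primorial y * n - f i a).Prime)).card : ℝ) < ρ * T.card)).card : ℝ) ≤
          (((Ioc (w i) (w i + G i)).filter (fun n =>
          (((T.image (f i)).filter (fun s => (primorial y * n - s).Prime)).card : ℝ) <
          (1 - η / 4) * (T.card / (Vz y * LX)))).card : ℝ) := by exact_mod_cast hle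
      refine le_trans (le_of_eq ?_) (hle2.trans (le_of_eq ?_))
      · congr!
      · congr!) (by
      rw [div_le_iff₀ (by positivity)]
      have h1 : (1 / L ^ 2) ^ k ≤ ρ ^ k := pow_le_pow_left₀ (by positivity) hρL k
      have h2 : (1 / L ^ 2) ^ k * L ^ (A + 2 * k) = L ^ A := by
        rw [pow_add, pow_mul, div_pow, one_pow]
        field_simp
      calc (x : ℝ) ≤ S.card * L ^ A := hSc
        _ = S.card * ((1 / L ^ 2) ^ k * L ^ (A + 2 * k)) := by rw [h2]
        _ ≤ S.card * (ρ ^ k * L ^ (A + 2 * k)) := by gcongr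
        _ = _ := by ring)
  have hP0 : (0 : ℝ) ≤ ∏ i, (G i : ℝ) := prod_nonneg fun _ _ => Nat.cast_nonneg _
  have hcardG : ∏ i, (((Ioc (w i) (w i + G i)).card : ℕ) : ℝ) = ∏ i, (G i : ℝ) := by
    apply prod_congr rfl
    intro i _
    rw [Nat.card_Ioc, Nat.add_sub_cancel_left]
  rw [hcardG] at hit
  refine le_trans ?_ (hit.trans (mul_le_mul_of_nonneg_right hkη hP0))
  have hle : ((Fintype.piFinset fun i => Ioc (w i) (w i + G i)).filter (fun n =>
      ((S.filter (fun s => ∀ i, (primorial y * n i - f i s).Prime)).card : ℝ) <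
      (1 - ε) * (S.card / (Vz y * L) ^ k))).card ≤
      ((Fintype.piFinset fun i => Ioc (w i) (w i + G i)).filter (fun n =>
      ((S.filter (fun s => ∀ i, (primorial y * n i - f i s).Prime)).card : ℝ) < ρ ^ k * S.card)).card := by
    apply card_le_card
    intro n hn
    rw [mem_filter] at hn ⊢
    refine ⟨hn.1, hn.2.trans_le ?_⟩
    have h1 : 1 - ε ≤ (1 - η) ^ k := by
      have h2 := one_add_mul_le_pow (a := -η) (by linarith) k
      have h3 : (1 + -η) = 1 - η := by ring
      rw [h3] at h2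
      linarith
    have h2 : ρ ^ k * (S.card : ℝ) = (1 - η) ^ k * (S.card / (Vz y * L) ^ k) := by
      rw [hρd, div_pow]
      ring
    rw [h2]
    exact mul_le_mul_of_nonneg_right h1 (by positivity)
  have hle' : (((Fintype.piFinset fun i => Ioc (w i) (w i + G i)).filter (fun n =>
      ((S.filter (fun s => ∀ i, (primorial y * n i - f i s).Prime)).card : ℝ) <
      (1 - ε) * (S.card / (Vz y * L) ^ k))).card : ℝ) ≤
      (((Fintype.piFinset fun i => Ioc (w i) (w i + G i)).filter (fun n =>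
      ((S.filter (fun s => ∀ i, (primorial y * n i - f i s).Prime)).card : ℝ) < ρ ^ k * S.card)).card : ℝ) := by
    exact_mod_cast hle
  refine le_trans (le_of_eq ?_) (hle'.trans (le_of_eq ?_))
  · congr!
  · congr!

end Pool.Agent.V5helper54.CS
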